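import Mathlib

/-!
# Definitions for the Legendre family (phase 5)
-/

set_option autoImplicit false

namespace Pool.Agent.SS.DL

open NumberField IsDedekindDomain

/-- number of prime ideals of norm `q` (`q` a prime number) -/
noncomputable def dP (M : Type) [Field M] [NumberField M] (q : ℕ) : ℕ :=
  Nat.card {I : Ideal (𝓞 M) // Ideal.absNorm I = q}

variable {K : Type} [Field K] [NumberField K]

/-- the curve `y ^ 2 = x (x - A) (x - B)` -/
def curL (A B : 𝓞 K) : WeierstrassCurve (𝓞 K) := ⟨0, -(A + B), 0, A * B, 0⟩

end Pool.Agent.SS.DL
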