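import Mathlib
import Pool.Agent.Work.MP_a5099b_nt.D5.DDefs
import Pool.Agent.Work.MP_a5099b_nt.D4.NumP

/-!
# Module D5/DPn (S): the number of prime ideals of norm `q`

PROOF. An ideal with prime norm `q` is a prime ideal (`Ideal.isPrime_of_irreducible_absNorm`) containing `q` (`Ideal.absNorm_mem`); at most `n` prime ideals contain `q` (see `D4/NumP` `card_above`;
or: `k` distinct ideals of norm `q` are pairwise coprime divisors of `(q)`, so `q ^ k ∣ absNorm (q) = q ^ n`). `dP_pos`: take a prime ideal `P` of norm `q` (nonzero), `Nat.card (O/P) = absNorm P`.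
-/

set_option autoImplicit false

namespace Pool.Agent.SS.DL

open NumberField IsDedekindDomain

variable (M : Type) [Field M] [NumberField M]

private theorem sub_above {q : ℕ} (hq : q.Prime) :
    {I : Ideal (𝓞 M) | Ideal.absNorm I = q} ⊆ {P : Ideal (𝓞 M) | P.IsPrime ∧ (q : 𝓞 M) ∈ P} := by
  intro I hI
  have hI' : Ideal.absNorm I = q := hI
  refine ⟨?_, ?_⟩
  · apply Ideal.isPrime_of_irreducible_absNorm
    rw [hI']
    exact hq
  · have := Ideal.absNorm_mem I
    rwa [hI'] at this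

theorem dP_le {q : ℕ} (hq : q.Prime) : dP M q ≤ Module.finrank ℚ M := by
  have h1 := DD.card_above M hq
  have h2 : dP M q = {I : Ideal (𝓞 M) | Ideal.absNorm I = q}.ncard := rfl
  rw [h2]
  exact (Set.ncard_le_ncard (sub_above M hq) h1.1).trans h1.2

theorem dP_pos {q : ℕ} (hq : q.Prime) : 0 < dP M q ↔
    ∃ v : HeightOneSpectrum (𝓞 M), (q : 𝓞 M) ∈ v.asIdeal ∧ Nat.card (𝓞 M ⧸ v.asIdeal) = q := by
  have h1 := DD.card_above M hq
  have hfin : Finite {I : Ideal (𝓞 M) // Ideal.absNorm I = q} :=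
    (h1.1.subset (sub_above M hq)).to_subtype
  unfold dP
  rw [Nat.card_pos_iff]
  constructor
  · rintro ⟨⟨I, hI⟩, -⟩
    have h2 := sub_above M hq hI
    refine ⟨⟨I, h2.1, DD.ne_bot_of_mem M hq I h2.2⟩, h2.2, ?_⟩
    show Nat.card (𝓞 M ⧸ I) = q
    rw [← hI, Ideal.absNorm_apply, Submodule.cardQuot_apply]
  · rintro ⟨v, -, hv⟩
    refine ⟨⟨⟨v.asIdeal, ?_⟩⟩, hfin⟩
    rw [Ideal.absNorm_apply, Submodule.cardQuot_apply]
    exact hv

end Pool.Agent.SS.DL
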