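import Mathlib
import Pool.Agent.Work.MP_a5099b_nt.D5.DDefs
import Pool.Agent.Work.MP_a5099b_nt.D5.DPn
import Pool.Agent.Work.MP_a5099b_nt.I.AExp
import Pool.Agent.Work.MP_a5099b_nt.I.BConv
import Pool.Agent.Work.MP_a5099b_nt.I.BPrim

/-!
# Module D5/ZLog (M-L): the sum over the primes of degree one is `log (1 / (s - 1)) + O(1)`

PROOF. Let `f n = Nat.card {I // absNorm I = n}` (for `n ≥ 1`; all these ideals are `≠ ⊥`), `g n = ∑_{absNorm I = n} LamK I` (`I/BDefs`, `I/BLam`). `cK_conv` (`I/BConv`, general `K`; take the trivial class map: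
`G = Unit` or `Multiplicative (ZMod 1)`, `cl = 1`, `N = 1`) gives `f n log n = ∑_{d e = n} g d f e`. `LSeries f` converges absolutely for `s > 1` (summatory function `O(X)`: `D4/Cnt`-like, or
`LSeriesSummable_of_sum_norm_bigO_and_nonneg` as in `I/ATw`; the sums of `f n`, `n ≤ X`, are counted by `Ideal.tendsto_norm_le_div_atTop₀`), and `0 ≤ g n ≤ f n log n`. `lseries_exp` (`I/AExp`):
`LSeries f s = exp (LSeries (g / log) s)`; all real. `NumberField.dedekindZeta M s = LSeries f s` and `(s - 1) ζ_M(s) → ρ > 0` (`tendsto_sub_one_mul_dedekindZeta_nhdsGT`, `dedekindZeta_residue_pos`), so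
`LSeries (g / log) s = log (1 / (s - 1)) + O(1)` for `1 < s ≤ s₀`; on `[s₀, 2]` both sides are bounded (`ζ_M(2) ≤ ζ_M(s) ≤ ζ_M(s₀)`, `ζ_M ≥ 1`). Finally
`g q = dP M q * log q` for `q` prime (the ideals of norm `q` are prime ideals, `LamK_pow` with `k = 1`), and for `n` not prime `0 ≤ g n ≤ n_M Λ(n)` (see the private lemma `lK_le` of
`I/BPrim`: copy it), and `∑_{n not prime} Λ(n) / (n log n) < ∞` (`ArithmeticFunction.vonMangoldt.summable_residueClass_non_primes_div` with modulus 1, used in `I/BPrim`).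
The summability of the sum over the primes: comparison with `n_M q ^ (-s)` (`Nat.Primes.summable_rpow`).
-/

set_option autoImplicit false

namespace Pool.Agent.SS.DL

open NumberField

open Finset Pool.Agent.Work.MP_a5099b_nt.PrF

section copy

variable {K : Type} [Field K] [NumberField K] {G : Type}

open scoped Classical in
/-- the prime below a prime power -/
private noncomputable def rt (I : Ideal (𝓞 K)) : Ideal (𝓞 K) :=
  if h : ∃ P : Ideal (𝓞 K), P.IsPrime ∧ P ≠ ⊥ ∧ ∃ k : ℕ, 1 ≤ k ∧ I = P ^ k then h.choose else ⊥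

private theorem rt_spec {I : Ideal (𝓞 K)}
    (h : ∃ P : Ideal (𝓞 K), P.IsPrime ∧ P ≠ ⊥ ∧ ∃ k : ℕ, 1 ≤ k ∧ I = P ^ k) :
    (rt I).IsPrime ∧ rt I ≠ ⊥ ∧ ∃ k : ℕ, 1 ≤ k ∧ I = rt I ^ k := by
  have h1 : rt I = h.choose := dif_pos h
  rw [h1]
  exact h.choose_spec

private theorem norm_two_le {P : Ideal (𝓞 K)} (hP : P.IsPrime) (h0 : P ≠ ⊥) : 2 ≤ Ideal.absNorm P := by
  have h1 : Ideal.absNorm P ≠ 0 := fun h => h0 (Ideal.absNorm_eq_zero_iff.1 h)
  have h2 : Ideal.absNorm P ≠ 1 := fun h => hP.ne_top (Ideal.absNorm_eq_one_iff.1 h)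
  omega

private theorem lK_le (N : ℕ) (cl : Ideal (𝓞 K) → G) (n : ℕ) (g : G) :
    lK N cl n g ≤ (Module.finrank ℤ (𝓞 K) : ℝ) * ArithmeticFunction.vonMangoldt n := by
  classical
  let F : Finset (Ideal (𝓞 K)) := (ids K n).filter fun I => Sm N I ∧ cl I = g
  let F' : Finset (Ideal (𝓞 K)) :=
    F.filter fun I => ∃ P : Ideal (𝓞 K), P.IsPrime ∧ P ≠ ⊥ ∧ ∃ k : ℕ, 1 ≤ k ∧ I = P ^ k
  have e1 : lK N cl n g = ∑ I ∈ F', LamK I := by
    have h1 : lK N cl n g = ∑ I ∈ F, LamK I := by
      unfold lK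
      congr
    rw [h1]
    refine (Finset.sum_subset (Finset.filter_subset _ _) fun I hI hI' => ?_).symm
    refine LamK_eq_zero I fun h => hI' (Finset.mem_filter.2 ⟨hI, h⟩)
  rw [e1]
  rcases F'.eq_empty_or_nonempty with h0 | ⟨I₀, hI₀⟩
  · rw [h0, Finset.sum_empty]
    exact mul_nonneg (Nat.cast_nonneg _) ArithmeticFunction.vonMangoldt_nonneg
  have hF' : ∀ I ∈ F', Ideal.absNorm I = n ∧ (rt I).IsPrime ∧ rt I ≠ ⊥ ∧ ∃ k : ℕ, 1 ≤ k ∧ I = rt I ^ k := by
    intro I hI
    have h1 := Finset.mem_filter.1 hI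
    exact ⟨(mem_ids n I).1 (Finset.mem_filter.1 h1.1).1, rt_spec h1.2⟩
  have key : ∀ I ∈ F', ∃ p m : ℕ, 0 < m ∧ (p : 𝓞 K) ∈ rt I ∧ p.Prime ∧ n = p ^ m := by
    intro I hI
    obtain ⟨hn, hP, hb, k, hk, hIk⟩ := hF' I hI
    have : (rt I).IsMaximal := hP.isMaximal hb
    obtain ⟨p, f, hf, hp1, hp2, hp3⟩ := Ideal.exists_prime_and_absNorm_eq_pow (rt I)
    refine ⟨p, f * k, Nat.mul_pos hf hk, hp1, hp2, ?_⟩
    rw [← hn]
    conv_lhs => rw [hIk]
    rw [map_pow, hp3, pow_mul]
  obtain ⟨p, m, hm, hpI, hp, hn⟩ := key I₀ hI₀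
  have hpp : ∀ I ∈ F', (p : 𝓞 K) ∈ rt I := by
    intro I hI
    obtain ⟨p', m', hm', hpI', hp', hn'⟩ := key I hI
    have : p' = p := by
      have h1 : p' ∣ p ^ m := by
        rw [← hn, hn']
        exact dvd_pow_self p' hm'.ne'
      exact (Nat.prime_dvd_prime_iff_eq hp' hp).1 (hp'.dvd_of_dvd_pow h1)
    rw [← this]
    exact hpI'
  have hinj : Set.InjOn (rt (K := K)) (F' : Set (Ideal (𝓞 K))) := by
    intro I hI J hJ hIJ
    obtain ⟨hnI, hPI, hbI, k, hk, hIk⟩ := hF' I hI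
    obtain ⟨hnJ, hPJ, hbJ, l, hl, hJl⟩ := hF' J hJ
    have h1 : Ideal.absNorm (rt I) ^ k = Ideal.absNorm (rt I) ^ l := by
      have e1 : Ideal.absNorm (rt I) ^ k = n := by
        rw [← map_pow, ← hIk]
        exact hnI
      have e2 : Ideal.absNorm (rt I) ^ l = n := by
        rw [hIJ, ← map_pow, ← hJl]
        exact hnJ
      rw [e1, e2]
    have h2 : k = l := Nat.pow_right_injective (norm_two_le hPI hbI) h1
    rw [hIk, hJl, h2, hIJ]
  have hsp : (Ideal.span {(p : 𝓞 K)} : Ideal (𝓞 K)) ≠ ⊥ := by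
    rw [Ne, Ideal.span_singleton_eq_bot]
    exact_mod_cast hp.ne_zero
  calc ∑ I ∈ F', LamK I = ∑ I ∈ F', LamK (rt I) := by
        refine Finset.sum_congr rfl fun I hI => ?_
        obtain ⟨hnI, hPI, hbI, k, hk, hIk⟩ := hF' I hI
        have h1 : LamK (rt I ^ k) = Real.log (Ideal.absNorm (rt I)) := LamK_pow (rt I) hPI hbI k hk
        have h2 : LamK (rt I ^ 1) = Real.log (Ideal.absNorm (rt I)) := LamK_pow (rt I) hPI hbI 1 le_rfl
        rw [pow_one] at h2
        conv_lhs => rw [hIk]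
        rw [h1, h2]
    _ = ∑ J ∈ F'.image rt, LamK J := (Finset.sum_image hinj).symm
    _ ≤ ∑ J ∈ (finite_dvd (Ideal.span {(p : 𝓞 K)}) hsp).toFinset, LamK J := by
        refine Finset.sum_le_sum_of_subset_of_nonneg ?_ fun J _ _ => LamK_nonneg J
        intro J hJ
        obtain ⟨I, hI, rfl⟩ := Finset.mem_image.1 hJ
        rw [Set.Finite.mem_toFinset]
        exact Ideal.dvd_iff_le.2 ((Ideal.span_singleton_le_iff_mem _).2 (hpp I hI))
    _ = Real.log (Ideal.absNorm (Ideal.span {(p : 𝓞 K)})) := sum_LamK _ hsp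
    _ = (Module.finrank ℤ (𝓞 K) : ℝ) * ArithmeticFunction.vonMangoldt n := by
        rw [Ideal.absNorm_span_natCast, Nat.cast_pow, Real.log_pow, hn,
          ArithmeticFunction.vonMangoldt_apply_pow hm.ne', ArithmeticFunction.vonMangoldt_apply_prime hp]


end copy

variable (M : Type) [Field M] [NumberField M]

private noncomputable def cf (n : ℕ) : ℝ := cK (K := M) (G := Unit) 1 (fun _ => 1) n 1

private noncomputable def gf (n : ℕ) : ℝ := lK (K := M) (G := Unit) 1 (fun _ => 1) n 1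

private theorem cf_nn (n : ℕ) : 0 ≤ cf M n := cK_nonneg _ _ _ _

private theorem gf_nn (n : ℕ) : 0 ≤ gf M n := lK_nonneg _ _ _ _

private theorem sm_one (I : Ideal (𝓞 M)) : Sm 1 I ↔ I ≠ ⊥ :=
  ⟨fun h => h.1, fun h => ⟨h, Nat.coprime_one_right _⟩⟩

private theorem ne_bot_of_norm {n : ℕ} (hn : n ≠ 0) {I : Ideal (𝓞 M)} (hI : Ideal.absNorm I = n) :
    I ≠ ⊥ := by
  rintro rfl
  rw [Ideal.absNorm_bot] at hI
  exact hn hI.symm

private theorem filt (n : ℕ) (hn : n ≠ 0)
    (inst : DecidablePred fun I : Ideal (𝓞 M) => Sm 1 I ∧ (fun _ : Ideal (𝓞 M) => (1 : Unit)) I = 1) :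
    @Finset.filter _ (fun I : Ideal (𝓞 M) => Sm 1 I ∧ (fun _ : Ideal (𝓞 M) => (1 : Unit)) I = 1) inst
      (ids M n) = ids M n := by
  refine Finset.filter_true_of_mem fun I hI => ?_
  rw [mem_ids] at hI
  exact ⟨(sm_one M I).2 (ne_bot_of_norm M hn hI), rfl⟩

private theorem card_ids (n : ℕ) : (ids M n).card = Nat.card {I : Ideal (𝓞 M) // Ideal.absNorm I = n} := by
  have h1 : Nat.card {I : Ideal (𝓞 M) // Ideal.absNorm I = n} = ({I : Ideal (𝓞 M) | Ideal.absNorm I = n}).ncard := rfl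
  rw [h1, ids, Set.ncard_eq_toFinset_card _ (Ideal.finite_setOfPred_absNorm_eq (S := 𝓞 M) n)]

private theorem cf_eq (n : ℕ) (hn : n ≠ 0) :
    cf M n = (Nat.card {I : Ideal (𝓞 M) // Ideal.absNorm I = n} : ℝ) := by
  classical
  unfold cf cK
  rw [filt M n hn, card_ids]

private theorem gf_eq (n : ℕ) (hn : n ≠ 0) : gf M n = ∑ I ∈ ids M n, LamK I := by
  classical
  unfold gf lK
  rw [filt M n hn]

private theorem conv (n : ℕ) (hn : 1 ≤ n) :
    cf M n * Real.log n = ∑ p ∈ n.divisorsAntidiagonal, gf M p.1 * cf M p.2 := by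
  have h := cK_conv (K := M) (G := Unit) 1 (fun _ => 1) (fun _ _ _ _ => rfl) n hn 1
  unfold cf gf
  rw [h]
  refine Finset.sum_congr rfl fun p _ => ?_
  rw [Fintype.sum_unique]

private theorem cf_one : cf M 1 = 1 := by
  classical
  have h := cK_one (K := M) (G := Unit) 1 (fun _ => 1) (fun _ _ _ _ => rfl) 1
  unfold cf
  rw [h, if_pos rfl]

private theorem gf_le_log (n : ℕ) (hn : 1 ≤ n) : gf M n ≤ cf M n * Real.log n := by
  rw [conv M n hn]
  calc gf M n = gf M (n, 1).1 * cf M (n, 1).2 := by rw [cf_one, mul_one]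
    _ ≤ _ := Finset.single_le_sum (f := fun p : ℕ × ℕ => gf M p.1 * cf M p.2)
      (fun p _ => mul_nonneg (gf_nn M _) (cf_nn M _))
      (Nat.mem_divisorsAntidiagonal.2 ⟨mul_one n, by omega⟩)

private theorem gf_prime {q : ℕ} (hq : q.Prime) : gf M q = (dP M q : ℝ) * Real.log q := by
  rw [gf_eq M q hq.ne_zero]
  have h1 : ∀ I ∈ ids M q, LamK I = Real.log q := by
    intro I hI
    rw [mem_ids] at hI
    have hP : I.IsPrime := by
      apply Ideal.isPrime_of_irreducible_absNorm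
      rw [hI]
      exact hq
    have h := LamK_pow I hP (ne_bot_of_norm M hq.ne_zero hI) 1 le_rfl
    rw [pow_one, hI] at h
    exact h
  rw [Finset.sum_congr rfl h1, Finset.sum_const, nsmul_eq_mul, card_ids]
  rfl

private theorem gf_le (n : ℕ) :
    gf M n ≤ (Module.finrank ℤ (𝓞 M) : ℝ) * ArithmeticFunction.vonMangoldt n := lK_le _ _ _ _

open Filter Topology nonZeroDivisors in
private theorem sum_tendsto :
    ∃ r : ℝ, Tendsto (fun n : ℕ => (∑ k ∈ Icc 1 n, cf M k) / (n : ℝ)) atTop (𝓝 r) := by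
  refine ⟨_, ((Ideal.tendsto_norm_le_div_atTop₀ M).comp tendsto_natCast_atTop_atTop).congr fun n => ?_⟩
  have h0 : ∑ k ∈ Icc 1 n, cf M k =
      ((∑ k ∈ Icc 1 n, Nat.card {I : Ideal (𝓞 M) // Ideal.absNorm I = k} : ℕ) : ℝ) := by
    rw [Nat.cast_sum]
    refine Finset.sum_congr rfl fun k hk => ?_
    exact cf_eq M k (by have := (Finset.mem_Icc.1 hk).1; omega)
  rw [h0]
  simp only [Function.comp_apply, Nat.cast_le]
  congr
  rw [← add_left_inj 1, ← Ideal.card_norm_le_eq_card_norm_le_add_one,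
    show Finset.Icc 1 n = Finset.Ioc 0 n from Finset.Icc_succ_left_eq_Ioc _ _,
    show 1 = Nat.card {I : Ideal (𝓞 M) // Ideal.absNorm I = 0} by simp [Ideal.absNorm_eq_zero_iff],
    Finset.sum_Ioc_add_eq_sum_Icc (n.zero_le),
    ← Finset.card_preimage_eq_sum_card_image_eq (fun k _ ↦ Ideal.finite_setOfPred_absNorm_eq k)]
  simp [Set.coe_eq_subtype]

private theorem cf_summable (s : ℝ) (hs : 1 < s) : LSeriesSummable (fun n => (cf M n : ℂ)) s := by
  refine LSeriesSummable_of_sum_norm_bigO_and_nonneg (f := fun n => cf M n) (r := 1) ?_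
    (fun n => cf_nn M n) zero_le_one (by simpa using hs)
  obtain ⟨r, hr⟩ := sum_tendsto M
  have h1 := hr.isBigO_one ℝ
  have h2 := h1.mul (Asymptotics.isBigO_refl (fun n : ℕ => (n : ℝ)) Filter.atTop)
  refine (h2.congr' ?_ ?_)
  · filter_upwards [Filter.eventually_ge_atTop 1] with n hn
    have : (n : ℝ) ≠ 0 := by
      have : n ≠ 0 := by omega
      exact_mod_cast this
    field_simp
  · filter_upwards with n
    rw [one_mul, Real.rpow_one]

private theorem log_summable (s : ℝ) (hs : 1 < s) :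
    LSeriesSummable (LSeries.logMul fun n => (cf M n : ℂ)) s := by
  refine LSeriesSummable_logMul_of_lt_re ?_
  refine lt_of_le_of_lt (LSeries.abscissaOfAbsConv_le_of_forall_lt_LSeriesSummable
    (x := 1) fun y hy => cf_summable M y hy) ?_
  rw [Complex.ofReal_re]
  exact_mod_cast hs

private theorem gf_summable (s : ℝ) (hs : 1 < s) : LSeriesSummable (fun n => (gf M n : ℂ)) s := by
  refine Summable.of_norm_bounded
    (g := fun n => ‖LSeries.term (LSeries.logMul fun n => (cf M n : ℂ)) s n‖)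
    (log_summable M s hs).norm fun n => ?_
  rcases eq_or_ne n 0 with rfl | hn
  · simp
  · refine LSeries.norm_term_le s ?_
    have hn' : 1 ≤ n := by omega
    have h1 := gf_le_log M n hn'
    have h2 : LSeries.logMul (fun n => (cf M n : ℂ)) n = ((Real.log n * cf M n : ℝ) : ℂ) := by
      unfold LSeries.logMul
      rw [Complex.ofReal_mul, Complex.natCast_log]
    have h3 : 0 ≤ Real.log n := Real.log_natCast_nonneg n
    rw [h2, Complex.norm_real, Complex.norm_real, Real.norm_eq_abs, Real.norm_eq_abs,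
      abs_of_nonneg (gf_nn M _), abs_of_nonneg (mul_nonneg h3 (cf_nn M _)), mul_comm]
    exact h1

/-- the coefficients `g n / log n` -/
private noncomputable def bf (n : ℕ) : ℝ := gf M n / Real.log n

private theorem bf_nn (n : ℕ) : 0 ≤ bf M n := div_nonneg (gf_nn M n) (Real.log_natCast_nonneg n)

private theorem bf_le (n : ℕ) : bf M n ≤ (Real.log 2)⁻¹ * gf M n := by
  have hl2 : 0 < Real.log 2 := Real.log_pos one_lt_two
  rcases Nat.lt_or_ge n 2 with hn | hn
  · have h1 : bf M n = 0 := by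
      unfold bf
      interval_cases n
      · simp
      · simp
    rw [h1]
    exact mul_nonneg (by positivity) (gf_nn M n)
  · unfold bf
    rw [div_eq_inv_mul]
    refine mul_le_mul_of_nonneg_right (inv_anti₀ hl2 ?_) (gf_nn M n)
    exact Real.log_le_log two_pos (by exact_mod_cast hn)

private theorem real_summable {u : ℕ → ℝ} (_ : ∀ n, 0 ≤ u n) (s : ℝ) (hs : 1 < s)
    (h : LSeriesSummable (fun n => (u n : ℂ)) s) :
    Summable (fun n : ℕ => u n * (n : ℝ) ^ (-s)) ∧
      LSeries (fun n => (u n : ℂ)) s = ((∑' n : ℕ, u n * (n : ℝ) ^ (-s) : ℝ) : ℂ) := by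
  have h1 : ∀ n : ℕ, LSeries.term (fun n => (u n : ℂ)) s n = ((u n * (n : ℝ) ^ (-s) : ℝ) : ℂ) := by
    intro n
    rcases eq_or_ne n 0 with rfl | hn
    · rw [LSeries.term_zero, Nat.cast_zero, Real.zero_rpow (by linarith), mul_zero, Complex.ofReal_zero]
    · rw [LSeries.term_of_ne_zero hn, Complex.ofReal_mul, Complex.ofReal_cpow (Nat.cast_nonneg n),
        Complex.ofReal_neg, Complex.cpow_neg, Complex.ofReal_natCast, div_eq_mul_inv]
  have h2 : Summable fun n : ℕ => ((u n * (n : ℝ) ^ (-s) : ℝ) : ℂ) := by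
    have h3 : Summable (LSeries.term (fun n => (u n : ℂ)) s) := h
    exact h3.congr h1
  refine ⟨Complex.summable_ofReal.1 h2, ?_⟩
  unfold LSeries
  rw [tsum_congr h1, Complex.ofReal_tsum]

private theorem bf_summable (s : ℝ) (hs : 1 < s) : LSeriesSummable (fun n => (bf M n : ℂ)) s := by
  have h1 := (real_summable (fun n => gf_nn M n) s hs (gf_summable M s hs)).1
  have h2 : Summable fun n : ℕ => bf M n * (n : ℝ) ^ (-s) := by
    refine Summable.of_nonneg_of_le (fun n => mul_nonneg (bf_nn M n) (Real.rpow_nonneg (Nat.cast_nonneg n) _))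
      (fun n => ?_) (h1.mul_left (Real.log 2)⁻¹)
    rw [← mul_assoc]
    exact mul_le_mul_of_nonneg_right (bf_le M n) (Real.rpow_nonneg (Nat.cast_nonneg n) _)
  have h3 : Summable fun n : ℕ => ((bf M n * (n : ℝ) ^ (-s) : ℝ) : ℂ) := Complex.summable_ofReal.2 h2
  refine h3.congr fun n => ?_
  rcases eq_or_ne n 0 with rfl | hn
  · rw [LSeries.term_zero, Nat.cast_zero, Real.zero_rpow (by linarith), mul_zero, Complex.ofReal_zero]
  · rw [LSeries.term_of_ne_zero hn, Complex.ofReal_mul, Complex.ofReal_cpow (Nat.cast_nonneg n),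
      Complex.ofReal_neg, Complex.cpow_neg, Complex.ofReal_natCast, div_eq_mul_inv]

private noncomputable def Ff (s : ℝ) : ℝ := ∑' n : ℕ, cf M n * (n : ℝ) ^ (-s)

private noncomputable def Hf (s : ℝ) : ℝ := ∑' n : ℕ, bf M n * (n : ℝ) ^ (-s)

private theorem F_eq_exp (s : ℝ) (hs : 1 < s) : Ff M s = Real.exp (Hf M s) := by
  have h := lseries_exp (fun n => (cf M n : ℂ)) (fun n => (gf M n : ℂ))
    (by show ((cf M 1 : ℝ) : ℂ) = 1; rw [cf_one]; rfl) (cf_summable M) (gf_summable M)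
    (fun n hn => by
      have h1 := conv M n hn
      have h2 := congrArg (fun x : ℝ => (x : ℂ)) h1
      push_cast at h2
      simpa using h2) s hs
  have h3 : (fun n : ℕ => (gf M n : ℂ) / (Real.log n : ℂ)) = fun n => ((bf M n : ℝ) : ℂ) := by
    funext n
    unfold bf
    push_cast
    rfl
  rw [h3, (real_summable (fun n => cf_nn M n) s hs (cf_summable M s hs)).2,
    (real_summable (fun n => bf_nn M n) s hs (bf_summable M s hs)).2, ← Complex.ofReal_exp] at h
  exact Complex.ofReal_injective h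

private theorem F_ge_one (s : ℝ) (hs : 1 < s) : 1 ≤ Ff M s := by
  have h := (real_summable (fun n => cf_nn M n) s hs (cf_summable M s hs)).1
  have h1 := h.le_tsum 1 fun n _ => mul_nonneg (cf_nn M n) (Real.rpow_nonneg (Nat.cast_nonneg n) _)
  rw [cf_one, Nat.cast_one, Real.one_rpow, mul_one] at h1
  exact h1

private theorem F_anti (s t : ℝ) (hs : 1 < s) (hst : s ≤ t) : Ff M t ≤ Ff M s := by
  have h1 := (real_summable (fun n => cf_nn M n) s hs (cf_summable M s hs)).1
  have h2 := (real_summable (fun n => cf_nn M n) t (by linarith) (cf_summable M t (by linarith))).1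
  refine h2.tsum_le_tsum (fun n => ?_) h1
  rcases Nat.eq_zero_or_pos n with rfl | hn
  · rw [Nat.cast_zero, Real.zero_rpow (by linarith), Real.zero_rpow (by linarith)]
  · refine mul_le_mul_of_nonneg_left ?_ (cf_nn M n)
    exact Real.rpow_le_rpow_of_exponent_le (by exact_mod_cast hn) (by linarith)

open Filter Topology in
private theorem F_tendsto : ∃ r : ℝ, 0 < r ∧ Tendsto (fun s : ℝ => (s - 1) * Ff M s) (𝓝[>] 1) (𝓝 r) := by
  refine ⟨dedekindZeta_residue M, dedekindZeta_residue_pos M, ?_⟩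
  have h := tendsto_sub_one_mul_dedekindZeta_nhdsGT M
  have h2 := (Complex.continuous_re.tendsto _).comp h
  rw [Complex.ofReal_re] at h2
  refine h2.congr' ?_
  filter_upwards [self_mem_nhdsWithin] with s hs
  have hs' : 1 < s := hs
  have h3 : dedekindZeta M (s : ℂ) = ((Ff M s : ℝ) : ℂ) := by
    unfold Ff
    rw [← (real_summable (fun n => cf_nn M n) s hs' (cf_summable M s hs')).2]
    unfold dedekindZeta
    refine LSeries_congr (fun {n} hn => ?_) _
    rw [cf_eq M n hn]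
    push_cast
    rfl
  simp only [Function.comp_apply]
  rw [h3, ← Complex.ofReal_one, ← Complex.ofReal_sub, ← Complex.ofReal_mul, Complex.ofReal_re]

private theorem H_bound : ∃ C : ℝ, ∀ s : ℝ, 1 < s → s ≤ 2 →
    |Hf M s - Real.log (1 / (s - 1))| ≤ C := by
  obtain ⟨r, hr, hT⟩ := F_tendsto M
  have h1 := hT.eventually (Ioo_mem_nhds (show r / 2 < r by linarith) (show r < r + 1 by linarith))
  rw [eventually_nhdsWithin_iff, Metric.eventually_nhds_iff] at h1
  obtain ⟨ε, hε, h1⟩ := h1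
  have hF1 := fun s hs => F_ge_one M s hs
  have hlog : ∀ s : ℝ, 1 < s → Hf M s - Real.log (1 / (s - 1)) = Real.log ((s - 1) * Ff M s) := by
    intro s hs
    have h2 : Hf M s = Real.log (Ff M s) := by rw [F_eq_exp M s hs, Real.log_exp]
    rw [h2, one_div, Real.log_inv, Real.log_mul (by linarith) (by linarith [hF1 s hs])]
    ring
  set s₀ : ℝ := 1 + ε / 2 with hs₀
  refine ⟨|Real.log (r / 2)| + |Real.log (r + 1)| + |Real.log (ε / 2)| + |Real.log (Ff M s₀)|, fun s hs hs2 => ?_⟩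
  rw [hlog s hs]
  have a1 := abs_nonneg (Real.log (r / 2))
  have a2 := abs_nonneg (Real.log (r + 1))
  have a3 := abs_nonneg (Real.log (ε / 2))
  have a4 := abs_nonneg (Real.log (Ff M s₀))
  rcases lt_or_ge s s₀ with h3 | h3
  · have h4 := h1 (y := s) (by rw [Real.dist_eq, abs_of_pos (by linarith)]; linarith) hs
    have h5 : Real.log (r / 2) ≤ Real.log ((s - 1) * Ff M s) := Real.log_le_log (by linarith) h4.1.le
    have h6 : Real.log ((s - 1) * Ff M s) ≤ Real.log (r + 1) :=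
      Real.log_le_log (lt_trans (by linarith) h4.1) h4.2.le
    rw [abs_le]
    have b1 := neg_abs_le (Real.log (r / 2))
    have b2 := le_abs_self (Real.log (r + 1))
    constructor <;> linarith
  · have h4 : Ff M s ≤ Ff M s₀ := F_anti M s₀ s (by linarith) h3
    have h5 := hF1 s hs
    have h6 : Real.log (ε / 2) ≤ Real.log ((s - 1) * Ff M s) := by
      refine Real.log_le_log (by linarith) ?_
      nlinarith
    have h7 : Real.log ((s - 1) * Ff M s) ≤ Real.log (Ff M s₀) := by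
      refine Real.log_le_log (mul_pos (by linarith) (by linarith)) ?_
      nlinarith
    rw [abs_le]
    have b1 := neg_abs_le (Real.log (ε / 2))
    have b2 := le_abs_self (Real.log (Ff M s₀))
    constructor <;> linarith

private theorem rest_bound : ∃ C : ℝ, ∀ s : ℝ, 1 < s →
    Summable (fun n : ℕ => (if n.Prime then 0 else bf M n) * (n : ℝ) ^ (-s)) ∧
    0 ≤ ∑' n : ℕ, (if n.Prime then 0 else bf M n) * (n : ℝ) ^ (-s) ∧
    ∑' n : ℕ, (if n.Prime then 0 else bf M n) * (n : ℝ) ^ (-s) ≤ C := by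
  let r : ℕ → ℝ := fun n => (if n.Prime then 0 else ArithmeticFunction.vonMangoldt n) / n
  have hr : Summable r := by
    have h := ArithmeticFunction.vonMangoldt.summable_residueClass_non_primes_div (q := 1) (0 : ZMod 1)
    refine h.congr fun n => ?_
    have h1 : ArithmeticFunction.vonMangoldt.residueClass (0 : ZMod 1) n = ArithmeticFunction.vonMangoldt n :=
      Set.indicator_of_mem (show n ∈ {n : ℕ | (n : ZMod 1) = 0} from Subsingleton.elim (n : ZMod 1) 0) _
    simp only [r]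
    rw [h1]
  let d : ℝ := (Real.log 2)⁻¹ * (Module.finrank ℤ (𝓞 M) : ℝ)
  have hl2 : 0 < Real.log 2 := Real.log_pos one_lt_two
  have hd : 0 ≤ d := mul_nonneg (by positivity) (Nat.cast_nonneg _)
  have hnn : ∀ s : ℝ, ∀ n : ℕ, 0 ≤ (if n.Prime then 0 else bf M n) * (n : ℝ) ^ (-s) := by
    intro s n
    refine mul_nonneg ?_ (Real.rpow_nonneg (Nat.cast_nonneg n) _)
    split_ifs
    · exact le_rfl
    · exact bf_nn M n
  have hle : ∀ s : ℝ, 1 < s → ∀ n : ℕ, (if n.Prime then 0 else bf M n) * (n : ℝ) ^ (-s) ≤ d * r n := by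
    intro s hs n
    have hrn : 0 ≤ r n := by
      refine div_nonneg ?_ (Nat.cast_nonneg _)
      split_ifs
      · exact le_rfl
      · exact ArithmeticFunction.vonMangoldt_nonneg
    rcases Nat.eq_zero_or_pos n with h0 | h0
    · subst h0
      rw [Nat.cast_zero, Real.zero_rpow (by linarith), mul_zero]
      exact mul_nonneg hd hrn
    have hn1 : (1 : ℝ) ≤ n := by exact_mod_cast h0
    have hn0 : (0 : ℝ) < n := by linarith
    by_cases hp : n.Prime
    · rw [if_pos hp, zero_mul]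
      exact mul_nonneg hd hrn
    · rw [if_neg hp]
      have h2 : r n = ArithmeticFunction.vonMangoldt n / n := by
        simp only [r]
        rw [if_neg hp]
      have h3 : (n : ℝ) ^ (-s) ≤ (n : ℝ)⁻¹ := by
        rw [← Real.rpow_neg_one]
        exact Real.rpow_le_rpow_of_exponent_le hn1 (by linarith)
      have h4 : bf M n ≤ d * ArithmeticFunction.vonMangoldt n := by
        refine (bf_le M n).trans ?_
        have := mul_le_mul_of_nonneg_left (gf_le M n) (show (0 : ℝ) ≤ (Real.log 2)⁻¹ by positivity)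
        refine this.trans (le_of_eq ?_)
        simp only [d]
        ring
      calc bf M n * (n : ℝ) ^ (-s) ≤ (d * ArithmeticFunction.vonMangoldt n) * (n : ℝ)⁻¹ :=
            mul_le_mul h4 h3 (Real.rpow_nonneg hn0.le _)
              (mul_nonneg hd ArithmeticFunction.vonMangoldt_nonneg)
        _ = d * r n := by rw [h2]; ring
  refine ⟨∑' n, d * r n, fun s hs => ?_⟩
  have hS : Summable (fun n : ℕ => (if n.Prime then 0 else bf M n) * (n : ℝ) ^ (-s)) :=
    Summable.of_nonneg_of_le (hnn s) (hle s hs) (hr.mul_left d)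
  exact ⟨hS, tsum_nonneg (hnn s), hS.tsum_le_tsum (hle s hs) (hr.mul_left d)⟩

theorem zlog (M : Type) [Field M] [NumberField M] : ∃ C : ℝ, ∀ s : ℝ, 1 < s → s ≤ 2 →
    Summable (fun q : Nat.Primes => (dP M q : ℝ) * (q : ℝ) ^ (-s)) ∧
    |(∑' q : Nat.Primes, (dP M q : ℝ) * (q : ℝ) ^ (-s)) - Real.log (1 / (s - 1))| ≤ C := by
  obtain ⟨C1, h1⟩ := H_bound M
  obtain ⟨C2, h2⟩ := rest_bound M
  refine ⟨C1 + C2, fun s hs hs2 => ?_⟩
  obtain ⟨h3, h4, h5⟩ := h2 s hs
  have h6 := (real_summable (fun n => bf_nn M n) s hs (bf_summable M s hs)).1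
  have h7 : ∀ q : Nat.Primes, bf M q * ((q : ℕ) : ℝ) ^ (-s) = (dP M q : ℝ) * (q : ℝ) ^ (-s) := by
    intro q
    have hq := q.2
    have hl : Real.log ((q : ℕ) : ℝ) ≠ 0 := by
      have : (1 : ℝ) < ((q : ℕ) : ℝ) := by exact_mod_cast hq.one_lt
      exact (Real.log_pos this).ne'
    have h8 : bf M q = (dP M q : ℝ) := by
      unfold bf
      rw [gf_prime M hq, mul_div_assoc, div_self hl, mul_one]
    rw [h8]
  have h9 : Summable (fun n : ℕ => (if n.Prime then bf M n else 0) * (n : ℝ) ^ (-s)) := by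
    refine (h6.sub h3).congr fun n => ?_
    split_ifs <;> ring
  have h10 : Function.Injective (fun q : Nat.Primes => (q : ℕ)) := Nat.Primes.coe_nat_injective
  have h11 : Summable (fun q : Nat.Primes => (dP M q : ℝ) * (q : ℝ) ^ (-s)) :=
    (h6.comp_injective h10).congr h7
  refine ⟨h11, ?_⟩
  have h12 : ∑' q : Nat.Primes, (dP M q : ℝ) * (q : ℝ) ^ (-s) =
      ∑' n : ℕ, (if n.Prime then bf M n else 0) * (n : ℝ) ^ (-s) := by
    rw [← tsum_congr h7]
    have h13 : ∀ q : Nat.Primes, bf M q * ((q : ℕ) : ℝ) ^ (-s) =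
        (fun n : ℕ => (if n.Prime then bf M n else 0) * (n : ℝ) ^ (-s)) (q : ℕ) := by
      intro q
      simp only [if_pos q.2]
    rw [tsum_congr h13]
    refine h10.tsum_eq (f := fun n : ℕ => (if n.Prime then bf M n else 0) * (n : ℝ) ^ (-s)) ?_
    intro n hn
    by_contra hc
    apply hn
    show (if n.Prime then bf M n else 0) * (n : ℝ) ^ (-s) = 0
    rw [if_neg (fun hp => hc ⟨⟨n, hp⟩, rfl⟩), zero_mul]
  have h14 : Hf M s = (∑' n : ℕ, (if n.Prime then bf M n else 0) * (n : ℝ) ^ (-s)) +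
      ∑' n : ℕ, (if n.Prime then 0 else bf M n) * (n : ℝ) ^ (-s) := by
    rw [← h9.tsum_add h3]
    unfold Hf
    refine tsum_congr fun n => ?_
    split_ifs <;> ring
  have h15 := h1 s hs hs2
  rw [h12]
  rw [abs_le] at h15 ⊢
  constructor <;> linarith

end Pool.Agent.SS.DL
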