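import Mathlib

/-!
# Module D5/Chi2 (M): the character sum identity of a 2-isogeny

PROOF. `χ` the quadratic character. For `x ≠ 0`: `x (x² + a x + b) = x² (x + a + b / x)`, so `χ = χ(x + b/x + a)`; the number of `x ≠ 0` with `x + b / x = t`, that is `x² - t x + b = 0` (roots are `≠ 0` as `b ≠ 0`), is
`1 + χ(t² - 4 b)` (`quadraticChar_card_sqrts` applied to `(2 x - t)² = t² - 4 b`). So the left side is `∑_t χ(t + a)(1 + χ(t² - 4b)) = 0 + ∑_t χ((t + a)(t² - 4 b))` (`quadraticChar_sum_zero`), and
`t = s - a` gives `∑_s χ(s (s² - 2 a s + a² - 4 b))`.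
-/

set_option autoImplicit false

namespace Pool.Agent.SS.DL

private theorem card_roots {k : Type} [Field k] [Fintype k] [DecidableEq k] (h2 : ringChar k ≠ 2)
    (b : k) (hb : b ≠ 0) (t : k) :
    (((Finset.univ.filter fun x : k => x ≠ 0).filter fun x => x + b / x = t).card : ℤ) =
      quadraticChar k (t ^ 2 - 4 * b) + 1 := by
  have h2' : (2 : k) ≠ 0 := Ring.two_ne_zero h2
  rw [← quadraticChar_card_sqrts h2 (t ^ 2 - 4 * b)]
  congr 1
  refine Finset.card_nbij' (fun x => 2 * x - t) (fun y => (y + t) / 2) ?_ ?_ ?_ ?_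
  · intro x hx
    simp only [Finset.coe_filter, Finset.mem_filter, Finset.mem_univ, true_and,
      Set.mem_ofPred_eq] at hx
    obtain ⟨hx0, hxt⟩ := hx
    have h1 : x ^ 2 + b = t * x := by
      rw [← hxt]
      field_simp
    simp only [Set.mem_ofPred_eq, Set.coe_toFinset]
    linear_combination 4 * h1
  · intro y hy
    simp only [Set.mem_ofPred_eq, Set.coe_toFinset] at hy
    have h1 : ((y + t) / 2) ^ 2 + b = t * ((y + t) / 2) := by
      field_simp
      linear_combination hy
    have h0 : (y + t) / 2 ≠ 0 := by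
      intro h
      rw [h] at h1
      apply hb
      linear_combination h1
    simp only [Finset.coe_filter, Finset.mem_filter, Finset.mem_univ, true_and,
      Set.mem_ofPred_eq]
    refine ⟨h0, ?_⟩
    apply mul_right_cancel₀ h0
    rw [add_mul, div_mul_cancel₀ _ h0]
    linear_combination h1
  · intro x _
    field_simp
    ring
  · intro y _
    field_simp
    ring

theorem chi_two {k : Type} [Field k] [Fintype k] [DecidableEq k] (h2 : ringChar k ≠ 2) (a b : k)
    (hb : b ≠ 0) :
    ∑ x : k, quadraticChar k (x * (x ^ 2 + a * x + b)) =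
      ∑ x : k, quadraticChar k (x * (x ^ 2 - 2 * a * x + (a ^ 2 - 4 * b))) := by
  have hL : ∑ x : k, quadraticChar k (x * (x ^ 2 + a * x + b)) =
      ∑ x ∈ Finset.univ.filter (fun x : k => x ≠ 0), quadraticChar k (x + b / x + a) := by
    rw [Finset.sum_filter]
    refine Finset.sum_congr rfl fun x _ => ?_
    by_cases hx : x = 0
    · rw [if_neg (not_not.mpr hx), hx]
      simp
    · rw [if_pos hx]
      have h1 : x * (x ^ 2 + a * x + b) = x ^ 2 * (x + b / x + a) := by
        field_simp
        ring
      rw [h1, map_mul, quadraticChar_sq_one' hx, one_mul]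
  have hR : ∑ x : k, quadraticChar k (x * (x ^ 2 - 2 * a * x + (a ^ 2 - 4 * b))) =
      ∑ t : k, quadraticChar k ((t + a) * (t ^ 2 - 4 * b)) := by
    refine (Fintype.sum_equiv (Equiv.addRight a) _ _ fun t => ?_).symm
    congr 1
    simp only [Equiv.coe_addRight]
    ring
  have hZ : ∑ t : k, quadraticChar k (t + a) = 0 := by
    rw [← quadraticChar_sum_zero h2]
    exact Fintype.sum_equiv (Equiv.addRight a) _ _ fun t => by simp
  rw [hL, hR, ← Finset.sum_fiberwise (Finset.univ.filter (fun x : k => x ≠ 0)) (fun x => x + b / x)]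
  have h3 : ∀ t : k, ∑ x ∈ (Finset.univ.filter (fun x : k => x ≠ 0)).filter
      (fun x => x + b / x = t), quadraticChar k (x + b / x + a) =
      quadraticChar k ((t + a) * (t ^ 2 - 4 * b)) + quadraticChar k (t + a) := by
    intro t
    have h4 : ∀ x ∈ (Finset.univ.filter (fun x : k => x ≠ 0)).filter
        (fun x => x + b / x = t), quadraticChar k (x + b / x + a) = quadraticChar k (t + a) := by
      intro x hx
      rw [(Finset.mem_filter.mp hx).2]
    rw [Finset.sum_congr rfl h4, Finset.sum_const, nsmul_eq_mul, card_roots h2 b hb t, map_mul]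
    ring
  rw [Finset.sum_congr rfl fun t _ => h3 t, Finset.sum_add_distrib, hZ, add_zero]

end Pool.Agent.SS.DL
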