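import Mathlib
import Pool.Agent.Work.MP_a5099b_nt.Defs
import Pool.Agent.Work.MP_a5099b_nt.C.EHas
import Pool.Agent.Work.MP_a5099b_nt.C.ECnt

/-!
# Module D5/SsC (S-M): supersingular from a character sum

`q ≥ 5` prime, the curve `y ^ 2 = x (x ^ 2 + a x + b)` over `ZMod q`.

PROOF. Substitute `x = z - a / 3`: `x³ + a x² + b x = z³ + a' z + b'`, `a' = b - a² / 3`, `b' = 2 a³ / 27 - a b / 3`. `4 a'³ + 27 b'² = -b² (a² - 4 b) ≠ 0` and
`1728 * 4 a'³ = y (4 a'³ + 27 b'²)` because `27 * 4 a' ^ 3 = -4 (a² - 3b)³`: `1728 * 4 * a'^3 = -256 (a² - 3 b)³ = - y b² (a² - 4b)`. By `sum_char` (`C.ECnt`; `k = ZMod q`, `card k = q`, so this is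
`Hasse q a' b'` up to sign): `Hasse q a' b' = - ∑_z (z³ + a' z + b') ^ ((q-1)/2)`, and `w ^ ((q-1)/2) = quadraticChar w` in `ZMod q` (`quadraticChar_eq_pow_of_char_ne_two'`, `ZMod.euler_criterion`), so this is the image of
`- ∑_x quadraticChar (x (x² + a x + b)) = 0` in `ZMod q`.
-/

set_option autoImplicit false

namespace Pool.Agent.SS.DL

open Polynomial

theorem ss_of_sum {q : ℕ} [Fact q.Prime] (h5 : 5 ≤ q) (a b y : ZMod q) (hb : b ≠ 0)
    (hd : a ^ 2 - 4 * b ≠ 0) (hy : 256 * (a ^ 2 - 3 * b) ^ 3 = y * (b ^ 2 * (a ^ 2 - 4 * b)))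
    (hs : ∑ x : ZMod q, quadraticChar (ZMod q) (x * (x ^ 2 + a * x + b)) = 0) : SSj q y := by
  have hq : q.Prime := Fact.out
  have hodd : q % 2 = 1 := by
    rcases hq.eq_two_or_odd with h | h
    · omega
    · exact h
  have h2 : (2 : ZMod q) ≠ 0 := by
    intro h
    have h' : ((2 : ℕ) : ZMod q) = 0 := by exact_mod_cast h
    rw [ZMod.natCast_eq_zero_iff] at h'
    have := Nat.le_of_dvd (by norm_num) h'
    omega
  have h3 : (3 : ZMod q) ≠ 0 := by
    intro h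
    have h' : ((3 : ℕ) : ZMod q) = 0 := by exact_mod_cast h
    rw [ZMod.natCast_eq_zero_iff] at h'
    have := Nat.le_of_dvd (by norm_num) h'
    omega
  have h27 : (27 : ZMod q) ≠ 0 := by
    have : (27 : ZMod q) = 3 ^ 3 := by norm_num
    rw [this]
    exact pow_ne_zero _ h3
  have e1 : 4 * (b - a ^ 2 / 3) ^ 3 + 27 * (2 * a ^ 3 / 27 - a * b / 3) ^ 2 =
      -(b ^ 2 * (a ^ 2 - 4 * b)) := by
    field_simp
    ring
  have e2 : 1728 * (4 * (b - a ^ 2 / 3) ^ 3) = -(256 * (a ^ 2 - 3 * b) ^ 3) := by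
    field_simp
    ring
  refine ⟨b - a ^ 2 / 3, 2 * a ^ 3 / 27 - a * b / 3, ?_, ?_, ?_⟩
  · rw [e1]
    exact neg_ne_zero.2 (mul_ne_zero (pow_ne_zero _ hb) hd)
  · rw [e1, e2, hy]
    ring
  · have h4 := sum_char h2 (b - a ^ 2 / 3) (2 * a ^ 3 / 27 - a * b / 3)
    rw [ZMod.card q] at h4
    have hr : ringChar (ZMod q) ≠ 2 := by
      rw [ZMod.ringChar_zmod_n]
      omega
    have h5 : ∑ x : ZMod q, (x ^ 3 + (b - a ^ 2 / 3) * x + (2 * a ^ 3 / 27 - a * b / 3)) ^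
        ((q - 1) / 2) = 0 := by
      rw [← Equiv.sum_comp (Equiv.addRight (a / 3))]
      have h6 : ∀ x : ZMod q, ((Equiv.addRight (a / 3) x) ^ 3 + (b - a ^ 2 / 3) *
          (Equiv.addRight (a / 3) x) + (2 * a ^ 3 / 27 - a * b / 3)) ^ ((q - 1) / 2) =
          ((quadraticChar (ZMod q) (x * (x ^ 2 + a * x + b)) : ℤ) : ZMod q) := by
        intro x
        rw [quadraticChar_eq_pow_of_char_ne_two' hr, ZMod.card q]
        have h7 : q / 2 = (q - 1) / 2 := by omega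
        rw [h7]
        congr 1
        rw [Equiv.coe_addRight]
        field_simp
        ring
      rw [Finset.sum_congr rfl fun x _ => h6 x]
      have h8 := congrArg (fun z : ℤ => (z : ZMod q)) hs
      push_cast at h8
      exact h8
    unfold Hasse
    rw [h5] at h4
    exact neg_eq_zero.1 h4.symm

end Pool.Agent.SS.DL
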