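import Mathlib

/-!
# Module D5/AdjS (S-M): adjoining a square root

PROOF. If `d` is a square in `K`: `M = K`. Otherwise `X ^ 2 - C d` is irreducible, `M = AdjoinRoot (X ^ 2 - C (d : K))` (or its splitting field) is a number field (`NumberField.of_module_finite K M`, or
`Module.Finite.trans` and characteristic zero), every element is `a + b s` with `a b : K` (`AdjoinRoot.powerBasis`, or: `finrank K M = 2` and `1, s` independent). If `x ^ 2 = -1`, `x = a + b s`:
`a ^ 2 + d b ^ 2 = -1` and `2 a b = 0`; `b = 0` contradicts `hi`, `a = 0` gives `d b ^ 2 = -1`, so `(d b) ^ 2 = -d`, contradicting `hd`.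
-/

set_option autoImplicit false

namespace Pool.Agent.SS.DL

open Polynomial in
private theorem adj_aux (K : Type) [Field K] [NumberField K] (d : ℕ) (hi : ∀ x : K, x ^ 2 ≠ -1)
    (hd : ∀ x : K, x ^ 2 ≠ -(d : K)) (hs : ∀ s : K, s ^ 2 ≠ (d : K)) :
    ∃ (M : Type) (_ : Field M) (_ : NumberField M) (_ : Algebra K M),
      (∃ s : M, s ^ 2 = (d : M)) ∧ ∀ x : M, x ^ 2 ≠ -1 := by
  obtain ⟨f, hf⟩ : ∃ f : K[X], f = X ^ 2 - C (d : K) := ⟨_, rfl⟩
  have hmon : f.Monic := by
    rw [hf]
    exact monic_X_pow_sub_C _ (by norm_num)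
  have hdeg : f.natDegree = 2 := by
    rw [hf]
    exact natDegree_X_pow_sub_C
  have hirr : Irreducible f := by
    rw [Polynomial.irreducible_iff_roots_eq_zero_of_degree_le_three (by omega) (by omega)]
    rw [Multiset.eq_zero_iff_forall_notMem]
    intro a ha
    rw [mem_roots hmon.ne_zero, hf] at ha
    have h1 : a ^ 2 - (d : K) = 0 := by
      simpa using ha
    exact hs a (sub_eq_zero.1 h1)
  have : Fact (Irreducible f) := ⟨hirr⟩
  have : CharZero (AdjoinRoot f) :=
    charZero_of_injective_algebraMap (algebraMap K (AdjoinRoot f)).injective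
  have : Module.Finite K (AdjoinRoot f) := hmon.finite_adjoinRoot
  have : NumberField (AdjoinRoot f) := NumberField.of_module_finite K (AdjoinRoot f)
  obtain ⟨s, hsdef⟩ : ∃ s : AdjoinRoot f, s = AdjoinRoot.root f := ⟨_, rfl⟩
  have hs2 : s ^ 2 = (d : AdjoinRoot f) := by
    have h3 : AdjoinRoot.mk f (X ^ 2 - C (d : K)) = 0 := by
      have h4 := AdjoinRoot.mk_self (f := f)
      have h5 : AdjoinRoot.mk f (X ^ 2 - C (d : K)) = AdjoinRoot.mk f f := congrArg _ hf.symm
      rw [h5, h4]
    have h2 : (AdjoinRoot.root f) ^ 2 - (AdjoinRoot.of f) (d : K) = 0 := by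
      rw [map_sub, map_pow, AdjoinRoot.mk_X, AdjoinRoot.mk_C] at h3
      exact h3
    rw [hsdef, sub_eq_zero.1 h2]
    simp
  have hrep : ∀ x : AdjoinRoot f, ∃ a b : K, x = algebraMap K _ a + algebraMap K _ b * s := by
    intro x
    obtain ⟨p, rfl⟩ := AdjoinRoot.mk_surjective x
    have h1 : (p %ₘ f).natDegree ≤ 1 := by
      have := natDegree_modByMonic_lt p hmon (by
        intro h
        rw [h, natDegree_one] at hdeg
        omega)
      omega
    obtain ⟨b, a, hab⟩ := exists_eq_X_add_C_of_natDegree_le_one h1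
    refine ⟨a, b, ?_⟩
    have h2 : p = p %ₘ f + f * (p /ₘ f) := (modByMonic_add_div p f).symm
    rw [h2, map_add, map_mul, AdjoinRoot.mk_self, zero_mul, add_zero, hab, hsdef]
    simp [AdjoinRoot.algebraMap_eq, add_comm]
  have hindep : ∀ a b : K, algebraMap K (AdjoinRoot f) a + algebraMap K _ b * s = 0 → b = 0 := by
    intro a b hab
    by_contra hb
    have h1 : s = algebraMap K (AdjoinRoot f) (-a / b) := by
      have hb' : algebraMap K (AdjoinRoot f) b ≠ 0 := by
        rw [Ne, FaithfulSMul.algebraMap_eq_zero_iff]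
        exact hb
      rw [map_div₀, map_neg, eq_div_iff hb']
      linear_combination hab
    have h2 : algebraMap K (AdjoinRoot f) ((-a / b) ^ 2) = algebraMap K (AdjoinRoot f) (d : K) := by
      rw [map_pow, ← h1, hs2, map_natCast]
    exact hs _ ((algebraMap K (AdjoinRoot f)).injective h2)
  refine ⟨AdjoinRoot f, inferInstance, inferInstance, inferInstance, ⟨s, hs2⟩, ?_⟩
  intro x hx
  obtain ⟨a, b, rfl⟩ := hrep x
  have h1 : algebraMap K (AdjoinRoot f) (a ^ 2 + d * b ^ 2 + 1) +
      algebraMap K (AdjoinRoot f) (2 * a * b) * s = 0 := by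
    simp only [map_add, map_mul, map_pow, map_natCast, map_one, map_ofNat]
    linear_combination hx - (algebraMap K (AdjoinRoot f) b) ^ 2 * hs2
  have h2 := hindep _ _ h1
  have h3 : a ^ 2 + d * b ^ 2 + 1 = 0 := by
    rw [h2, map_zero, zero_mul, add_zero] at h1
    rwa [FaithfulSMul.algebraMap_eq_zero_iff] at h1
  have h4 : a * b = 0 := by
    have : (2 : K) ≠ 0 := two_ne_zero
    rcases mul_eq_zero.1 (by linear_combination h2 : (2 : K) * (a * b) = 0) with h | h
    · exact absurd h this
    · exact h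
  rcases mul_eq_zero.1 h4 with h | h
  · refine hd (d * b) ?_
    rw [h] at h3
    linear_combination (d : K) * h3
  · refine hi a ?_
    rw [h] at h3
    linear_combination h3

theorem adj (K : Type) [Field K] [NumberField K] (d : ℕ) (hd0 : 0 < d) (hi : ∀ x : K, x ^ 2 ≠ -1)
    (hd : ∀ x : K, x ^ 2 ≠ -(d : K)) :
    ∃ (M : Type) (_ : Field M) (_ : NumberField M) (_ : Algebra K M),
      (∃ s : M, s ^ 2 = (d : M)) ∧ ∀ x : M, x ^ 2 ≠ -1 := by
  by_cases hs : ∃ s : K, s ^ 2 = (d : K)
  · exact ⟨K, inferInstance, inferInstance, Algebra.id K, hs, hi⟩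
  · push Not at hs
    exact adj_aux K d hi hd hs

end Pool.Agent.SS.DL
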