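import Mathlib
import Pool.Agent.Work.MP_a5099b_nt.D5.DDefs

/-!
# Module D5/TwoP (M): primes of degree one above `q ≡ 1 mod 4` split in `M(i)`

`L = CyclotomicField 4 M`.

PROOF. `ζ ∈ 𝓞 L`, `ζ ^ 2 = -1` (`IsCyclotomicExtension.zeta_spec 4 M L`, `IsPrimitiveRoot.toInteger`, `ζ ^ 4 = 1`, `ζ ^ 2 ≠ 1`). `L / M` is Galois; `ζ` is not in the image of `M` (`hi`), so some
`σ ∈ Gal(L/M)` moves `ζ`, and `(σ ζ) ^ 2 = -1` gives `σ ζ = -ζ`. `finrank M L ≤ 2` (`φ(4) = 2`; `cyclotomic 4` has degree 2), so `= 2`.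
Let `P` be a prime ideal of `𝓞 M` of norm `q`. Let `Q` be a prime of `𝓞 L` above `P` (`Ideal.exists_ideal_liesOver_maximal_of_isIntegral`, ...). `r : ℤ` with `r ^ 2 ≡ -1 mod q` (`ZMod.exists_sq_eq_neg_one_iff`):
`(ζ - r)(ζ + r) = -1 - r ^ 2 ∈ (q) ⊆ Q`, so `ζ - r ∈ Q` or `ζ + r ∈ Q`; apply `σ`: `σ Q` contains `ζ + r` (up to sign), resp. `ζ - r`; `Q ≠ σ Q` since otherwise `2 r ∈ Q`, so `q ∣ 2 r`, false.
`2 x = (x + σ x) + ζ (ζ (σ x - x))` lies in `𝓞 M + ζ 𝓞 M`, so `𝓞 M / P → 𝓞 L / Q` is onto: both primes have norm `q`. Different `P` have different `Q`'s (`Q ∩ 𝓞 M = P`).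
-/

set_option autoImplicit false

namespace Pool.Agent.SS.DL

open NumberField

private theorem core {A B : Type} [CommRing A] [CommRing B] [Algebra A B] (P : Ideal A)
    (Q : Ideal B) (hQP : Q.comap (algebraMap A B) = P) {q : ℕ} (hq2 : q % 4 = 1)
    (hqP : (q : A) ∈ P) (ζ : B) (r : ℤ) (hr : ζ - r ∈ Q)
    (hdec : ∀ x : B, ∃ u v : A, 2 * x = algebraMap A B u + ζ * algebraMap A B v) :
    Nat.card (B ⧸ Q) = Nat.card (A ⧸ P) := by
  have hqQ : (q : B) ∈ Q := by
    have : (q : A) ∈ Q.comap (algebraMap A B) := by rw [hQP]; exact hqP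
    rw [Ideal.mem_comap, map_natCast] at this
    exact this
  let f : A ⧸ P →+* B ⧸ Q := Ideal.quotientMap Q (algebraMap A B) (by rw [hQP])
  have hinj : Function.Injective f := Ideal.quotientMap_injective' (by rw [hQP])
  have hsurj : Function.Surjective f := by
    intro y
    obtain ⟨x, rfl⟩ := Ideal.Quotient.mk_surjective y
    obtain ⟨u, v, huv⟩ := hdec x
    obtain ⟨m, hm⟩ : ∃ m : ℕ, 2 * m = q + 1 := ⟨(q + 1) / 2, by omega⟩
    refine ⟨Ideal.Quotient.mk P ((m : A) * (u + (r : A) * v)), ?_⟩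
    simp only [f, Ideal.quotientMap_mk]
    rw [Ideal.Quotient.mk_eq_mk_iff_sub_mem]
    have h1 : algebraMap A B ((m : A) * (u + (r : A) * v)) - x =
        (q : B) * x - (ζ - r) * ((m : B) * algebraMap A B v) := by
      have h2 : ((2 * m : ℕ) : B) = ((q + 1 : ℕ) : B) := by rw [hm]
      push_cast at h2
      simp only [map_mul, map_add, map_natCast, map_intCast]
      have h3 : (q : B) = 2 * m - 1 := by rw [h2]; ring
      rw [h3]
      linear_combination -(m : B) * huv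
    rw [h1]
    exact Q.sub_mem (Q.mul_mem_right _ hqQ) (Q.mul_mem_right _ hr)
  exact (Nat.card_eq_of_bijective f ⟨hinj, hsurj⟩).symm

private theorem main_abs {M L : Type} [Field M] [NumberField M] [Field L] [NumberField L]
    [Algebra M L] (ζ : 𝓞 L) (hζ : ζ ^ 2 = -1) (σ : 𝓞 L ≃+* 𝓞 L) (hσζ : σ ζ = -ζ)
    (hσ2 : ∀ x, σ (σ x) = x)
    (hσM : ∀ x : 𝓞 M, σ (algebraMap (𝓞 M) (𝓞 L) x) = algebraMap (𝓞 M) (𝓞 L) x)
    (hfix : ∀ x : 𝓞 L, σ x = x → ∃ u : 𝓞 M, algebraMap (𝓞 M) (𝓞 L) u = x)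
    {q : ℕ} (hq : q.Prime) (h4 : q % 4 = 1) : 2 * dP M q ≤ dP L q := by
  classical
  have : Fact q.Prime := ⟨hq⟩
  obtain ⟨r, hr⟩ : ∃ r : ℤ, (q : ℤ) ∣ r ^ 2 + 1 := by
    have h1 : IsSquare (-1 : ZMod q) := by
      rw [ZMod.exists_sq_eq_neg_one_iff]
      omega
    obtain ⟨y, hy⟩ := h1
    refine ⟨(y.val : ℤ), ?_⟩
    rw [← ZMod.intCast_zmod_eq_zero_iff_dvd]
    push_cast
    rw [ZMod.natCast_zmod_val, pow_two, ← hy]
    ring
  have hdec : ∀ x : 𝓞 L, ∃ u v : 𝓞 M, 2 * x = algebraMap (𝓞 M) (𝓞 L) u +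
      ζ * algebraMap (𝓞 M) (𝓞 L) v := by
    intro x
    obtain ⟨u, hu⟩ := hfix (x + σ x) (by rw [map_add, hσ2]; ring)
    obtain ⟨v, hv⟩ := hfix (ζ * (σ x - x)) (by
      rw [map_mul, map_sub, hσζ, hσ2]; ring)
    refine ⟨u, v, ?_⟩
    rw [hu, hv]
    linear_combination -(σ x - x) * hζ
  have hnot : ∀ Q : Ideal (𝓞 L), Ideal.absNorm Q = q → ζ - r ∈ Q → ζ + r ∈ Q → False := by
    intro Q hQ h1 h2
    have h3 : ((2 * r : ℤ) : 𝓞 L) ∈ Q := by
      have h4 := Q.sub_mem h2 h1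
      have h5 : ((2 * r : ℤ) : 𝓞 L) = ζ + r - (ζ - r) := by push_cast; ring
      rw [h5]
      exact h4
    have h4 : (q : 𝓞 L) ∈ Q := by
      have := Ideal.absNorm_mem Q
      rwa [hQ] at this
    have hne : Q ≠ ⊤ := by
      rintro rfl
      rw [Ideal.absNorm_top] at hQ
      exact hq.one_lt.ne hQ
    have hcop : IsCoprime (2 * r) (q : ℤ) := by
      rw [Int.isCoprime_iff_gcd_eq_one, Int.gcd_comm, ← Int.isCoprime_iff_gcd_eq_one]
      rw [Prime.coprime_iff_not_dvd (Nat.prime_iff_prime_int.mp hq)]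
      intro hd
      rcases (Nat.prime_iff_prime_int.mp hq).dvd_or_dvd hd with h5 | h5
      · have := Int.le_of_dvd (by norm_num) h5
        have := hq.two_le
        omega
      · have h6 : (q : ℤ) ∣ r ^ 2 := dvd_pow h5 two_ne_zero
        have h7 : (q : ℤ) ∣ 1 := by
          have := dvd_sub hr h6
          simpa using this
        have := Int.le_of_dvd (by norm_num) h7
        have := hq.two_le
        omega
    obtain ⟨a, b, hab⟩ := hcop
    apply hne
    rw [Ideal.eq_top_iff_one]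
    have h5 : (1 : 𝓞 L) = (a : 𝓞 L) * ((2 * r : ℤ) : 𝓞 L) + (b : 𝓞 L) * (q : 𝓞 L) := by
      have := congrArg (fun z : ℤ => (z : 𝓞 L)) hab
      push_cast at this ⊢
      exact this.symm
    rw [h5]
    exact Q.add_mem (Q.mul_mem_left _ h3) (Q.mul_mem_left _ h4)
  -- the two primes above a prime
  have hex : ∀ P : {I : Ideal (𝓞 M) // Ideal.absNorm I = q}, ∀ s : Bool,
      ∃ Q : {I : Ideal (𝓞 L) // Ideal.absNorm I = q},
        Q.1.comap (algebraMap (𝓞 M) (𝓞 L)) = P.1 ∧
        (if s then ζ - r ∈ Q.1 else ζ + r ∈ Q.1) := by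
    rintro ⟨P, hP⟩
    have hPp : P.IsPrime := Ideal.isPrime_of_irreducible_absNorm (by rw [hP]; exact hq)
    have hqP : (q : 𝓞 M) ∈ P := by
      have := Ideal.absNorm_mem P
      rwa [hP] at this
    obtain ⟨Q, -, hQp, hQc⟩ := Ideal.exists_ideal_over_prime_of_isIntegral P (⊥ : Ideal (𝓞 L))
      (by
        rw [← RingHom.ker_eq_comap_bot,
          (RingHom.injective_iff_ker_eq_bot _).mp (FaithfulSMul.algebraMap_injective (𝓞 M) (𝓞 L))]
        exact bot_le)
    have hqQ : (q : 𝓞 L) ∈ Q := by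
      have : (q : 𝓞 M) ∈ Q.comap (algebraMap (𝓞 M) (𝓞 L)) := by rw [hQc]; exact hqP
      rw [Ideal.mem_comap, map_natCast] at this
      exact this
    have hcard : ∀ Q' : Ideal (𝓞 L), Q'.comap (algebraMap (𝓞 M) (𝓞 L)) = P →
        (ζ - r ∈ Q' ∨ ζ + r ∈ Q') → Ideal.absNorm Q' = q := by
      intro Q' h1 h2
      have hN : ∀ {R : Type} [CommRing R] [Nontrivial R] [IsDedekindDomain R] [Module.Free ℤ R]
          (I : Ideal R), Ideal.absNorm I = Nat.card (R ⧸ I) := by
        intro R _ _ _ _ I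
        rw [Ideal.absNorm_apply, Submodule.cardQuot_apply]
      rw [hN, ← hP, hN]
      rcases h2 with h2 | h2
      · exact core P Q' h1 h4 hqP ζ r h2 hdec
      · exact core P Q' h1 h4 hqP ζ (-r) (by push_cast; simpa [sub_neg_eq_add] using h2) hdec
    have hprod : ζ - r ∈ Q ∨ ζ + r ∈ Q := by
      apply hQp.mem_or_mem
      obtain ⟨c, hc⟩ := hr
      have h1 : (ζ - r) * (ζ + r) = (q : 𝓞 L) * (-(c : 𝓞 L)) := by
        have := congrArg (fun z : ℤ => (z : 𝓞 L)) hc
        push_cast at this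
        linear_combination hζ - this
      rw [h1]
      exact Q.mul_mem_right _ hqQ
    -- the conjugate prime
    let Q' : Ideal (𝓞 L) := Q.comap (σ : 𝓞 L →+* 𝓞 L)
    have hQ'c : Q'.comap (algebraMap (𝓞 M) (𝓞 L)) = P := by
      rw [← hQc]
      ext x
      simp only [Q', Ideal.mem_comap, RingHom.coe_coe]
      rw [hσM]
    have hmem : ∀ x, x ∈ Q' ↔ σ x ∈ Q := fun x => by
      simp only [Q', Ideal.mem_comap, RingHom.coe_coe]
    have hQ'1 : ζ - r ∈ Q → ζ + r ∈ Q' := by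
      intro h
      rw [hmem, map_add, hσζ, map_intCast]
      have : -ζ + (r : 𝓞 L) = -(ζ - r) := by ring
      rw [this]
      exact Q.neg_mem h
    have hQ'2 : ζ + r ∈ Q → ζ - r ∈ Q' := by
      intro h
      rw [hmem, map_sub, hσζ, map_intCast]
      have : -ζ - (r : 𝓞 L) = -(ζ + r) := by ring
      rw [this]
      exact Q.neg_mem h
    intro s
    rcases hprod with h | h
    · cases s
      · exact ⟨⟨Q', hcard Q' hQ'c (Or.inr (hQ'1 h))⟩, hQ'c, by simpa using hQ'1 h⟩
      · exact ⟨⟨Q, hcard Q hQc (Or.inl h)⟩, hQc, by simpa using h⟩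
    · cases s
      · exact ⟨⟨Q, hcard Q hQc (Or.inr h)⟩, hQc, by simpa using h⟩
      · exact ⟨⟨Q', hcard Q' hQ'c (Or.inl (hQ'2 h))⟩, hQ'c, by simpa using hQ'2 h⟩
  choose F hF using hex
  have hfinL : Finite {I : Ideal (𝓞 L) // Ideal.absNorm I = q} :=
    (Ideal.finite_setOfPred_absNorm_eq q).to_subtype
  have hinj : Function.Injective (fun p : Bool × {I : Ideal (𝓞 M) // Ideal.absNorm I = q} =>
      F p.2 p.1) := by
    rintro ⟨s, P⟩ ⟨s', P'⟩ h
    simp only at h
    have h1 := hF P s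
    have h2 := hF P' s'
    rw [← h] at h2
    have hPP : P = P' := Subtype.ext (h1.1.symm.trans h2.1)
    subst hPP
    cases s <;> cases s'
    · rfl
    · exact absurd (hnot _ (F P false).2 (by simpa using h2.2) (by simpa using h1.2)) id
    · exact absurd (hnot _ (F P true).2 (by simpa using h1.2) (by simpa using h2.2)) id
    · rfl
  have h := Nat.card_le_card_of_injective _ hinj
  rw [Nat.card_prod, Nat.card_eq_fintype_card, Fintype.card_bool] at h
  exact h

theorem two_dP (M : Type) [Field M] [NumberField M] (hi : ∀ x : M, x ^ 2 ≠ -1) {q : ℕ} (hq : q.Prime)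
    (h4 : q % 4 = 1) : 2 * dP M q ≤ dP (CyclotomicField 4 M) q := by
  have hprim := IsCyclotomicExtension.zeta_spec 4 M (CyclotomicField 4 M)
  set z : CyclotomicField 4 M := IsCyclotomicExtension.zeta 4 M (CyclotomicField 4 M) with hz
  have hz4 : z ^ 4 = 1 := hprim.pow_eq_one
  have hz2 : z ^ 2 = -1 := by
    have h1 : (z ^ 2 - 1) * (z ^ 2 + 1) = 0 := by ring_nf; rw [hz4]; ring
    rcases mul_eq_zero.mp h1 with h2 | h2
    · exact absurd (sub_eq_zero.mp h2) (hprim.pow_ne_one_of_pos_of_lt (by norm_num) (by norm_num))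
    · exact eq_neg_of_add_eq_zero_left h2
  have hgal : IsGalois M (CyclotomicField 4 M) :=
    IsCyclotomicExtension.isGalois {4} M (CyclotomicField 4 M)
  have hfd : FiniteDimensional M (CyclotomicField 4 M) :=
    IsCyclotomicExtension.finiteDimensional {4} M (CyclotomicField 4 M)
  have hpm : ∀ f : Gal(CyclotomicField 4 M/M), f z = z ∨ f z = -z := by
    intro f
    have h1 : (f z) ^ 2 = z ^ 2 := by rw [← map_pow, hz2, map_neg, map_one]
    exact sq_eq_sq_iff_eq_or_eq_neg.mp h1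
  obtain ⟨σ, hσ⟩ : ∃ σ : Gal(CyclotomicField 4 M/M), σ z = -z := by
    by_contra hcon
    push Not at hcon
    have h1 : z ∈ Set.range (algebraMap M (CyclotomicField 4 M)) := by
      rw [IsGalois.mem_range_algebraMap_iff_fixed]
      intro f
      exact (hpm f).resolve_right (hcon f)
    obtain ⟨x, hx⟩ := h1
    apply hi x
    apply (algebraMap M (CyclotomicField 4 M)).injective
    rw [map_pow, hx, hz2, map_neg, map_one]
  have hext : ∀ f g : Gal(CyclotomicField 4 M/M), f z = g z → f = g := by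
    intro f g h
    have h1 : (f : CyclotomicField 4 M →ₐ[M] CyclotomicField 4 M) = g :=
      (hprim.powerBasis M).algHom_ext (by simpa using h)
    exact AlgEquiv.coe_toAlgHom_injective h1
  have hσσ : ∀ x, σ (σ x) = x := by
    have h1 : σ * σ = 1 := by
      apply hext
      rw [AlgEquiv.mul_apply, hσ, map_neg, hσ, neg_neg, AlgEquiv.one_apply]
    intro x
    rw [← AlgEquiv.mul_apply, h1, AlgEquiv.one_apply]
  have hfix : ∀ x, σ x = x → x ∈ Set.range (algebraMap M (CyclotomicField 4 M)) := by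
    intro x hx
    rw [IsGalois.mem_range_algebraMap_iff_fixed]
    intro f
    rcases hpm f with h | h
    · have : f = 1 := hext _ _ (by rw [h, AlgEquiv.one_apply])
      rw [this, AlgEquiv.one_apply]
    · have : f = σ := hext _ _ (by rw [h, hσ])
      rw [this, hx]
  -- integers
  have hzint : IsIntegral ℤ z := hprim.isIntegral (by norm_num)
  let ζ : 𝓞 (CyclotomicField 4 M) := ⟨z, hzint⟩
  have hco : ∀ x : 𝓞 M, ((algebraMap (𝓞 M) (𝓞 (CyclotomicField 4 M)) x :
      𝓞 (CyclotomicField 4 M)) : CyclotomicField 4 M) =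
      algebraMap M (CyclotomicField 4 M) (x : M) := fun x => rfl
  refine main_abs (M := M) ζ ?_ (RingOfIntegers.mapRingEquiv (σ : CyclotomicField 4 M ≃+* _))
    ?_ ?_ ?_ ?_ hq h4
  · apply RingOfIntegers.ext
    push_cast
    exact hz2
  · apply RingOfIntegers.ext
    rw [RingOfIntegers.mapRingEquiv_apply]
    exact hσ
  · intro x
    apply RingOfIntegers.ext
    rw [RingOfIntegers.mapRingEquiv_apply, RingOfIntegers.mapRingEquiv_apply]
    exact hσσ _
  · intro x
    apply RingOfIntegers.ext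
    rw [RingOfIntegers.mapRingEquiv_apply, hco]
    exact σ.commutes _
  · intro x hx
    have h1 : σ (x : CyclotomicField 4 M) = x := by
      have := congrArg (fun y : 𝓞 (CyclotomicField 4 M) => (y : CyclotomicField 4 M)) hx
      simpa using this
    obtain ⟨u, hu⟩ := hfix _ h1
    have hui : IsIntegral ℤ u := by
      have h2 : IsIntegral ℤ (algebraMap M (CyclotomicField 4 M) u) := by
        rw [hu]
        exact x.2
      exact (isIntegral_algebraMap_iff (algebraMap M (CyclotomicField 4 M)).injective).mp h2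
    refine ⟨⟨u, hui⟩, ?_⟩
    apply RingOfIntegers.ext
    exact (hco ⟨u, hui⟩).trans hu

end Pool.Agent.SS.DL
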