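import Mathlib
import Pool.Agent.Work.MP_a5099b_nt.D5.DDefs
import Pool.Agent.Work.MP_a5099b_nt.D5.DPn
import Pool.Agent.Work.MP_a5099b_nt.D5.ZLog
import Pool.Agent.Work.MP_a5099b_nt.D5.TwoP

/-!
# Module D5/Sum3 (M): the sum of `1 / q` over `q ≡ 3 mod 4` with a degree one place of `M` diverges (`i ∉ M`)

PROOF. Suppose not: all finite sums over the set `B` of primes `q > N`, `q ≡ 3 mod 4`, `dP M q > 0`, are `< R`. With `n = finrank ℚ M`, `D(s) = ∑ dP M q q^(-s)`, `L = CyclotomicField 4 M`: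
for `1 < s ≤ 2`: the part of `D(s)` over `q ≡ 3 mod 4` is at most `n R + n (N + 1)` (`dP ≤ n`, `q^(-s) ≤ 1/q`, the `q ≤ N` contribute at most `n` each), the part `q = 2` at most `n`, the part
`q ≡ 1 mod 4` at most `(1/2) ∑ dP L q q^(-s) ≤ (1/2)(log (1/(s-1)) + C_L)` (`two_dP`, `zlog L`). And `D(s) ≥ log (1/(s-1)) - C_M`. So `(1/2) log (1/(s-1)) ≤ const` for all `1 < s ≤ 2`: false
(`s → 1`). (Sums over the parts: `Summable.subtype`/indicator functions, `Summable.tsum_le_tsum`, `tsum_add`; finite partial sums: `Summable.tsum_le_of_sum_le`.)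
-/

set_option autoImplicit false

namespace Pool.Agent.SS.DL

open NumberField

theorem sum3 (M : Type) [Field M] [NumberField M] (hi : ∀ x : M, x ^ 2 ≠ -1) (N : ℕ) (R : ℝ) :
    ∃ S : Finset ℕ, (∀ q ∈ S, q.Prime ∧ N < q ∧ q % 4 = 3 ∧ 0 < dP M q) ∧ R ≤ ∑ q ∈ S, (1 : ℝ) / q := by
  classical
  by_contra hcon
  have hcon' : ∀ S : Finset ℕ, (∀ q ∈ S, q.Prime ∧ N < q ∧ q % 4 = 3 ∧ 0 < dP M q) →
      ∑ q ∈ S, (1 : ℝ) / q < R := by
    intro S hS
    by_contra h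
    exact hcon ⟨S, hS, not_lt.1 h⟩
  obtain ⟨CM, hM⟩ := zlog M
  obtain ⟨CL, hL⟩ := zlog (CyclotomicField 4 M)
  obtain ⟨n, hn⟩ : ∃ n : ℝ, n = (Module.finrank ℚ M : ℝ) := ⟨_, rfl⟩
  have hn0 : 0 ≤ n := by
    rw [hn]
    exact Nat.cast_nonneg _
  have hdn : ∀ q : Nat.Primes, (dP M q : ℝ) ≤ n := by
    intro q
    rw [hn]
    exact_mod_cast dP_le M q.2
  obtain ⟨h1, hh1⟩ : ∃ h1 : Nat.Primes → ℝ, h1 = fun q : Nat.Primes => if (q : ℕ) ≤ N + 2 then n else 0 :=
    ⟨_, rfl⟩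
  obtain ⟨h2, hh2⟩ : ∃ h2 : Nat.Primes → ℝ, h2 = fun q : Nat.Primes =>
    if N < (q : ℕ) ∧ (q : ℕ) % 4 = 3 ∧ 0 < dP M q then n * (1 / (q : ℕ)) else 0 := ⟨_, rfl⟩
  have p1 : ∀ q, 0 ≤ h1 q := by
    intro q
    rw [hh1]
    dsimp only
    split_ifs
    · exact hn0
    · exact le_rfl
  have p2 : ∀ q, 0 ≤ h2 q := by
    intro q
    rw [hh2]
    dsimp only
    split_ifs
    · positivity
    · exact le_rfl
  have s1 : Summable h1 := by
    apply summable_of_hasFiniteSupport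
    have hfin : ({q : Nat.Primes | (q : ℕ) ≤ N + 2}).Finite := by
      apply Set.Finite.of_finite_image (f := fun q : Nat.Primes => (q : ℕ))
      · apply (Set.finite_Iic (N + 2)).subset
        rintro _ ⟨q, hq, rfl⟩
        exact hq
      · intro a _ b _ hab
        exact Subtype.ext hab
    apply hfin.subset
    intro q hq
    rw [Function.mem_support, hh1] at hq
    dsimp only at hq
    by_contra h
    exact hq (if_neg h)
  have s2 : Summable h2 := by
    apply summable_of_sum_le p2 (c := n * R)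
    intro u
    have e1 : ∑ x ∈ u, h2 x = n * ∑ q ∈ (u.filter fun q : Nat.Primes => N < (q : ℕ) ∧
        (q : ℕ) % 4 = 3 ∧ 0 < dP M q).image (fun q : Nat.Primes => (q : ℕ)), (1 : ℝ) / q := by
      rw [hh2, Finset.sum_ite, Finset.sum_const_zero, add_zero, ← Finset.mul_sum,
        Finset.sum_image]
      intro a _ b _ hab
      exact Subtype.ext hab
    rw [e1]
    apply mul_le_mul_of_nonneg_left _ hn0
    apply le_of_lt
    apply hcon'
    intro q hq
    rw [Finset.mem_image] at hq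
    obtain ⟨x, hx, rfl⟩ := hq
    rw [Finset.mem_filter] at hx
    exact ⟨x.2, hx.2⟩
  have key : ∀ s : ℝ, 1 < s → ∀ q : Nat.Primes, (dP M q : ℝ) * (q : ℝ) ^ (-s) ≤
      (1 / 2) * ((dP (CyclotomicField 4 M) q : ℝ) * (q : ℝ) ^ (-s)) + (h1 q + h2 q) := by
    intro s hs q
    have q2 : 2 ≤ (q : ℕ) := q.2.two_le
    have q1 : (1 : ℝ) ≤ ((q : ℕ) : ℝ) := by
      have : (2 : ℝ) ≤ ((q : ℕ) : ℝ) := by exact_mod_cast q2
      linarith
    have q0 : (0 : ℝ) < ((q : ℕ) : ℝ) := by linarith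
    have hp0 : (0 : ℝ) ≤ ((q : ℕ) : ℝ) ^ (-s) := Real.rpow_nonneg q0.le _
    have hp1 : ((q : ℕ) : ℝ) ^ (-s) ≤ 1 / ((q : ℕ) : ℝ) := by
      have h := Real.rpow_le_rpow_of_exponent_le q1 (show -s ≤ -1 by linarith)
      rwa [Real.rpow_neg_one, ← one_div] at h
    have hp2 : ((q : ℕ) : ℝ) ^ (-s) ≤ 1 := by
      refine hp1.trans ?_
      rw [div_le_one q0]
      exact q1
    have hd0 : (0 : ℝ) ≤ (dP M q : ℝ) := Nat.cast_nonneg _
    have hdL : (0 : ℝ) ≤ (dP (CyclotomicField 4 M) q : ℝ) * ((q : ℕ) : ℝ) ^ (-s) :=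
      mul_nonneg (Nat.cast_nonneg _) hp0
    have t1 := p1 q
    have t2 := p2 q
    by_cases c1 : (q : ℕ) ≤ N + 2
    · have e1 : h1 q = n := by
        rw [hh1]
        exact if_pos c1
      have e2 : (dP M q : ℝ) * ((q : ℕ) : ℝ) ^ (-s) ≤ n * 1 :=
        mul_le_mul (hdn q) hp2 hp0 hn0
      linarith
    · have hodd : (q : ℕ) % 2 = 1 := by
        rcases q.2.eq_two_or_odd with h | h
        · omega
        · exact h
      rcases (by omega : (q : ℕ) % 4 = 1 ∨ (q : ℕ) % 4 = 3) with h4 | h4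
      · have e1 : (2 : ℝ) * (dP M q : ℝ) ≤ (dP (CyclotomicField 4 M) q : ℝ) := by
          exact_mod_cast two_dP M hi q.2 h4
        have e2 := mul_le_mul_of_nonneg_right e1 hp0
        linarith
      · rcases Nat.eq_zero_or_pos (dP M q) with hz | hz
        · rw [hz]
          simp only [Nat.cast_zero, zero_mul]
          linarith
        · have e1 : h2 q = n * (1 / (q : ℕ)) := by
            rw [hh2]
            exact if_pos ⟨by omega, h4, hz⟩
          have e2 : (dP M q : ℝ) * ((q : ℕ) : ℝ) ^ (-s) ≤ n * (1 / (q : ℕ)) :=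
            mul_le_mul (hdn q) hp1 hp0 hn0
          linarith
  have main : ∀ s : ℝ, 1 < s → s ≤ 2 → (1 / 2) * Real.log (1 / (s - 1)) ≤
      CM + (1 / 2) * CL + ∑' q, (h1 q + h2 q) := by
    intro s hs hs2
    obtain ⟨a1, a2⟩ := hM s hs hs2
    obtain ⟨b1, b2⟩ := hL s hs hs2
    have c1 := (a1.tsum_le_tsum (key s hs) ((b1.mul_left (1 / 2)).add (s1.add s2)))
    rw [(b1.mul_left (1 / 2)).tsum_add (s1.add s2), tsum_mul_left] at c1
    rw [abs_le] at a2 b2
    linarith [a2.1, b2.2]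
  obtain ⟨T, hT⟩ : ∃ T : ℝ, T = 2 * |CM + (1 / 2) * CL + ∑' q, (h1 q + h2 q)| + 1 := ⟨_, rfl⟩
  have hT0 : 0 < T := by
    rw [hT]
    positivity
  have hm := main (1 + Real.exp (-T)) (by linarith [Real.exp_pos (-T)]) (by
    have : Real.exp (-T) ≤ 1 := Real.exp_le_one_iff.2 (by linarith)
    linarith)
  rw [add_sub_cancel_left, one_div (Real.exp (-T)), ← Real.exp_neg, neg_neg, Real.log_exp] at hm
  have := le_abs_self (CM + (1 / 2) * CL + ∑' q, (h1 q + h2 q))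
  linarith

end Pool.Agent.SS.DL
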