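import Mathlib
import Pool.Agent.Work.MP_a5099b_nt.D5.DDefs
import Pool.Agent.Work.MP_a5099b_nt.D5.DPn
import Pool.Agent.Work.MP_a5099b_nt.D5.Sum3
import Pool.Agent.Work.MP_a5099b_nt.D5.AdjS
import Pool.Agent.Work.MP_a5099b_nt.D4.NormQ

/-!
# Module D5/Deg3 (M): primes `q ≡ 3 mod 4` with a place of degree one and `d` a square modulo `q`

PROOF. `M` from `adj`, `sum3 M` with `N' = max N B`, `B` from `unram K` (`D4/NormQ`). For `q ∈ S`: `dP_pos` gives a place `w` of `M` with `Nat.card (𝓞 M / w) = q`. `v = w ∩ 𝓞 K` (`Ideal.comap`): prime, contains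
`q`, `≠ ⊥`; `𝓞 K / v` embeds in `𝓞 M / w` (`Ideal.quotientMap`, injective) and has at least `q` elements (characteristic `q`): `Nat.card = q`. `s` is an algebraic integer (`s ^ 2 = d`), so it has an image in
`𝓞 M / w`, a field with `q` elements, isomorphic to `ZMod q` (`ZMod.ringEquivOfPrime` or `ZMod.castHom` is bijective): its square is `d`.
-/

set_option autoImplicit false

namespace Pool.Agent.SS.DL

open NumberField IsDedekindDomain

private theorem sq_of_card {q : ℕ} (hq : q.Prime) (R : Type) [CommRing R] [IsDomain R] (hc : Nat.card R = q)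
    (hq0 : (q : R) = 0) (d : ℕ) (s : R) (hs : s ^ 2 = (d : R)) : ∃ t : ZMod q, t ^ 2 = (d : ZMod q) := by
  have : Fact q.Prime := ⟨hq⟩
  have : Finite R := Nat.finite_of_card_ne_zero (by rw [hc]; exact hq.ne_zero)
  have : Fintype R := Fintype.ofFinite R
  have : CharP R q := by
    refine (CharP.charP_iff_prime_eq_zero hq).2 hq0
  have hc' : Fintype.card R = q := by rw [← Nat.card_eq_fintype_card]; exact hc
  have e := ZMod.ringEquivOfPrime R hq hc'
  refine ⟨e.symm s, ?_⟩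
  rw [← map_pow, hs, map_natCast]

private theorem card_below {q : ℕ} (hq : q.Prime) (A B : Type) [CommRing A] [CommRing B] [Nontrivial A]
    (f : A →+* B) (hf : Function.Injective f) (hB : Nat.card B = q) : Nat.card A = q := by
  have : Finite B := Nat.finite_of_card_ne_zero (by rw [hB]; exact hq.ne_zero)
  have : Finite A := Finite.of_injective f hf
  have h1 : Nat.card A ∣ Nat.card B := by
    have h2 : Nat.card (f.toAddMonoidHom.range) ∣ Nat.card B := AddSubgroup.card_addSubgroup_dvd_card _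
    have h3 : Nat.card A = Nat.card (f.toAddMonoidHom.range) :=
      Nat.card_congr (AddMonoidHom.ofInjective (f := f.toAddMonoidHom) hf).toEquiv
    rw [h3]; exact h2
  rw [hB] at h1
  rcases (Nat.dvd_prime hq).1 h1 with h | h
  · exfalso
    have : 1 < Nat.card A := Finite.one_lt_card
    omega
  · exact h

theorem deg3 (K : Type) [Field K] [NumberField K] (d : ℕ) (hd0 : 0 < d) (hi : ∀ x : K, x ^ 2 ≠ -1)
    (hd : ∀ x : K, x ^ 2 ≠ -(d : K)) (N : ℕ) (R : ℝ) :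
    ∃ S : Finset ℕ, (∀ q ∈ S, q.Prime ∧ N < q ∧ q % 4 = 3 ∧ (∃ s : ZMod q, s ^ 2 = (d : ZMod q)) ∧
      (∀ v : HeightOneSpectrum (𝓞 K), (q : 𝓞 K) ∈ v.asIdeal → (q : 𝓞 K) ∉ v.asIdeal ^ 2) ∧
      ∃ v : HeightOneSpectrum (𝓞 K), (q : 𝓞 K) ∈ v.asIdeal ∧ Nat.card (𝓞 K ⧸ v.asIdeal) = q) ∧
      R ≤ ∑ q ∈ S, (1 : ℝ) / q := by
  obtain ⟨M, _, _, _, ⟨s, hs⟩, hiM⟩ := adj K d hd0 hi hd
  obtain ⟨B, hB⟩ := DD.unram K
  obtain ⟨S, hS, hR⟩ := sum3 M hiM (max N B) R
  refine ⟨S, ?_, hR⟩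
  intro q hqS
  obtain ⟨hq, hN, h4, hdp⟩ := hS q hqS
  obtain ⟨w, hqw, hw⟩ := (dP_pos M hq).1 hdp
  have hint : IsIntegral ℤ s := by
    refine ⟨Polynomial.X ^ 2 - Polynomial.C (d : ℤ), Polynomial.monic_X_pow_sub_C _ (by norm_num), ?_⟩
    simp [hs]
  obtain ⟨s', hs'⟩ : ∃ s' : 𝓞 M, (s' : M) = s := ⟨⟨s, hint⟩, rfl⟩
  have hs2 : s' ^ 2 = (d : 𝓞 M) := by
    apply RingOfIntegers.coe_injective
    rw [map_pow, map_natCast]
    rw [show (algebraMap (𝓞 M) M) s' = s from hs', hs]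
  have hprime := w.isPrime
  refine ⟨hq, lt_of_le_of_lt (le_max_left _ _) hN, h4, ?_, hB q hq (lt_of_le_of_lt (le_max_right _ _) hN), ?_⟩
  · refine sq_of_card hq (𝓞 M ⧸ w.asIdeal) hw ?_ d (Ideal.Quotient.mk _ s') ?_
    · rw [← map_natCast (Ideal.Quotient.mk w.asIdeal)]
      exact Ideal.Quotient.eq_zero_iff_mem.2 hqw
    · rw [← map_pow, hs2, map_natCast]
  · obtain ⟨P, hP⟩ : ∃ P : Ideal (𝓞 K), P = w.asIdeal.comap (algebraMap (𝓞 K) (𝓞 M)) := ⟨_, rfl⟩
    have hPp : P.IsPrime := by rw [hP]; exact Ideal.comap_isPrime _ _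
    have hqP : (q : 𝓞 K) ∈ P := by
      rw [hP, Ideal.mem_comap, map_natCast]
      exact hqw
    have hP0 : P ≠ ⊥ := by
      intro h
      rw [h, Ideal.mem_bot] at hqP
      exact hq.ne_zero (by exact_mod_cast hqP)
    refine ⟨⟨P, hPp, hP0⟩, hqP, ?_⟩
    have hle : P ≤ w.asIdeal.comap (algebraMap (𝓞 K) (𝓞 M)) := hP.le
    refine card_below hq _ _ (Ideal.quotientMap w.asIdeal (algebraMap (𝓞 K) (𝓞 M)) hle) ?_ hw
    exact Ideal.quotientMap_injective' hP.ge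

end Pool.Agent.SS.DL
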