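import Mathlib
import Pool.Agent.Work.MP_a5099b_nt.Defs
import Pool.Agent.Work.MP_a5099b_nt.D5.Chi2
import Pool.Agent.Work.MP_a5099b_nt.D5.SsC

/-!
# Module D5/Ss23 (M): `8000` is supersingular for `q ≡ 7 mod 8`, `54000` for `q ≡ 11 mod 12`

PROOF. `ss2`: `a = 4`, `b = 2`: `a² - 4 b = 8 ≠ 0`, `a² - 3 b = 10`, `256 * 1000 = y * (4 * 8)`, `y = 8000`. By `chi_two` the sum `S` equals `∑ χ(x (x² - 8 x + 8))`; substitute `x = -2 u`:
`x (x² - 8 x + 8) = -8 u (u² + 4 u + 2)`, so `S = χ(-8) S = χ(-2) S`, and `χ(-2) = -1` for `q ≡ 7 mod 8` (`ZMod.exists_sq_eq_neg_two_iff`, `FiniteField.isSquare_neg_two_iff`): `2 S = 0`, `S = 0` (integer).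
`ss3`: `a = 6`, `b = -3`: `a² - 4 b = 48`, `a² - 3 b = 45`, `256 * 45³ = 54000 * 9 * 48`. `chi_two` for `a = -3`, `b = 3`: `∑ χ(x (x² - 3 x + 3)) = ∑ χ(x (x² + 6 x - 3))`, and `x (x² - 3 x + 3) = (x - 1)³ + 1`; cubing is a
bijection of `ZMod q` (`q ≡ 2 mod 3`: `Nat.Coprime 3 (q - 1)`), so the sum is `∑ χ(u + 1) = 0`.
-/

set_option autoImplicit false

namespace Pool.Agent.SS.DL

private theorem cast_ne {q : ℕ} [Fact q.Prime] (n : ℕ) (hn : n ≠ 0) (h : n < q) :
    (n : ZMod q) ≠ 0 := by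
  intro h'
  rw [ZMod.natCast_eq_zero_iff] at h'
  have := Nat.le_of_dvd (Nat.pos_of_ne_zero hn) h'
  omega

theorem ss2 {q : ℕ} [Fact q.Prime] (h8 : q % 8 = 7) (h7 : 7 ≤ q) : SSj q (8000 : ZMod q) := by
  have h2 : (2 : ZMod q) ≠ 0 := by exact_mod_cast cast_ne (q := q) 2 (by norm_num) (by omega)
  have hr : ringChar (ZMod q) ≠ 2 := by
    rw [ZMod.ringChar_zmod_n]
    omega
  have h8' : (8 : ZMod q) ≠ 0 := by
    have : (8 : ZMod q) = 2 ^ 3 := by norm_num
    rw [this]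
    exact pow_ne_zero _ h2
  refine ss_of_sum (by omega) 4 2 8000 h2 ?_ (by norm_num) ?_
  · have : (4 : ZMod q) ^ 2 - 4 * 2 = 8 := by norm_num
    rw [this]
    exact h8'
  · set S := ∑ x : ZMod q, quadraticChar (ZMod q) (x * (x ^ 2 + 4 * x + 2)) with hS
    have h1 := chi_two hr 4 2 h2
    rw [← hS] at h1
    have hm : quadraticChar (ZMod q) (-8) = -1 := by
      have e : (-8 : ZMod q) = -2 * 2 ^ 2 := by norm_num
      rw [e, map_mul, quadraticChar_sq_one' h2, mul_one, quadraticChar_neg_one_iff_not_isSquare,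
        ZMod.exists_sq_eq_neg_two_iff (by omega)]
      omega
    have h3 : ∑ x : ZMod q, quadraticChar (ZMod q) (x * (x ^ 2 - 2 * 4 * x + (4 ^ 2 - 4 * 2))) =
        -S := by
      have hbij : Function.Bijective (fun u : ZMod q => -2 * u) :=
        mulLeft_bijective₀ (-2 : ZMod q) (neg_ne_zero.2 h2)
      rw [← (Equiv.ofBijective _ hbij).sum_comp]
      rw [hS, ← Finset.sum_neg_distrib]
      refine Finset.sum_congr rfl fun u _ => ?_
      rw [Equiv.ofBijective_apply]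
      have e : -2 * u * ((-2 * u) ^ 2 - 2 * 4 * (-2 * u) + (4 ^ 2 - 4 * 2)) =
          -8 * (u * (u ^ 2 + 4 * u + 2)) := by ring
      rw [e, map_mul, hm, neg_one_mul]
    rw [h3] at h1
    omega

theorem ss3 {q : ℕ} [Fact q.Prime] (h12 : q % 12 = 11) : SSj q (54000 : ZMod q) := by
  have hq : q.Prime := Fact.out
  have h2 : (2 : ZMod q) ≠ 0 := by exact_mod_cast cast_ne (q := q) 2 (by norm_num) (by omega)
  have h3 : (3 : ZMod q) ≠ 0 := by exact_mod_cast cast_ne (q := q) 3 (by norm_num) (by omega)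
  have hr : ringChar (ZMod q) ≠ 2 := by
    rw [ZMod.ringChar_zmod_n]
    omega
  have h48 : (48 : ZMod q) ≠ 0 := by
    have : (48 : ZMod q) = 2 ^ 4 * 3 := by norm_num
    rw [this]
    exact mul_ne_zero (pow_ne_zero _ h2) h3
  refine ss_of_sum (by omega) 6 (-3) 54000 (neg_ne_zero.2 h3) ?_ (by norm_num) ?_
  · have : (6 : ZMod q) ^ 2 - 4 * -3 = 48 := by norm_num
    rw [this]
    exact h48
  · have h1 := chi_two hr (-3) 3 h3
    have e1 : ∀ x : ZMod q, x * (x ^ 2 - 2 * -3 * x + ((-3) ^ 2 - 4 * 3)) =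
        x * (x ^ 2 + 6 * x + -3) := fun x => by ring
    simp only [e1] at h1
    rw [← h1]
    have e2 : ∀ x : ZMod q, x * (x ^ 2 + -3 * x + 3) = (x - 1) ^ 3 + 1 := fun x => by ring
    simp only [e2]
    -- cubing is bijective
    have hcop : Nat.Coprime 3 (q - 1) := by
      rw [Nat.Prime.coprime_iff_not_dvd Nat.prime_three]
      omega
    have hinj : Function.Injective (fun x : ZMod q => x ^ 3) := by
      intro x y hxy
      have hxy' : x ^ 3 = y ^ 3 := hxy
      by_cases hy : y = 0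
      · rw [hy, zero_pow (by norm_num)] at hxy'
        rw [hy]
        exact pow_eq_zero_iff (by norm_num) |>.1 hxy'
      have hx : x ≠ 0 := by
        rintro rfl
        rw [zero_pow (by norm_num)] at hxy'
        exact hy (pow_eq_zero_iff (by norm_num) |>.1 hxy'.symm)
      have h4 : (x / y) ^ 3 = 1 := by
        rw [div_pow, hxy', div_self (pow_ne_zero _ hy)]
      have h5 : (x / y) ^ (q - 1) = 1 := ZMod.pow_card_sub_one_eq_one (div_ne_zero hx hy)
      have h6 : orderOf (x / y) ∣ Nat.gcd 3 (q - 1) :=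
        Nat.dvd_gcd (orderOf_dvd_of_pow_eq_one h4) (orderOf_dvd_of_pow_eq_one h5)
      rw [hcop, Nat.dvd_one, orderOf_eq_one_iff] at h6
      exact (div_eq_one_iff_eq hy).1 h6
    have hbij : Function.Bijective (fun x : ZMod q => (x - 1) ^ 3 + 1) := by
      apply (Fintype.bijective_iff_injective_and_card _).2
      refine ⟨fun x y hxy => ?_, rfl⟩
      have h4 : (x - 1) ^ 3 = (y - 1) ^ 3 := add_right_cancel hxy
      have h5 := hinj h4
      exact sub_left_injective h5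
    have h4 := (Equiv.ofBijective _ hbij).sum_comp (fun z => quadraticChar (ZMod q) z)
    have h5 : ∑ x : ZMod q, quadraticChar (ZMod q) ((x - 1) ^ 3 + 1) =
        ∑ z : ZMod q, quadraticChar (ZMod q) z := h4
    rw [h5]
    exact quadraticChar_sum_zero hr

end Pool.Agent.SS.DL
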