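import Mathlib
import Pool.Agent.Work.MP_a5099b_nt.Defs
import Pool.Agent.Work.MP_a5099b_nt.D5.Ss23

/-!
# Module D5/Full (S-M): a supersingular curve with full 2-torsion over `ZMod q`

PROOF. `d = 2`: `s ^ 2 = 2`, `q ≡ 3 mod 4` gives `q % 8 = 7` (`ZMod.exists_sq_eq_two_iff`). `x² + 4 x + 2 = (x + 2 - s)(x + 2 + s)`: `A = -2 + s`, `B = -2 - s`, `A B = 2`, `A - B = 2 s`, `A² - A B + B² = 16 - 6 = 10`:
`256 * 1000 = 8000 * (2 * 2 s)² = 8000 * 32`. `y = 8000 = 2^6 5^3`, `8000 - 1728 = 6272 = 2^7 7^2`.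
`d = 3`: `s ^ 2 = 3`, `q ≡ 3 mod 4` gives `q % 12 = 11` (quadratic reciprocity: `ZMod.exists_sq_eq_prime_iff_of_mod_four_eq_three`, `legendreSym.quadratic_reciprocity`). `x² + 6 x - 3 = (x + 3 - 2 s)(x + 3 + 2 s)`: `A = -3 + 2 s`, `B = -3 - 2 s`,
`A B = -3`, `A - B = 4 s`, `A² - A B + B² = 36 + 9 = 45`, `256 * 45³ = 54000 * (3 * 4 s)² = 54000 * 432`. `y = 54000 = 2^4 3^3 5^3`, `54000 - 1728 = 52272 = 2^4 3^3 11^2`.
-/

set_option autoImplicit false

namespace Pool.Agent.SS.DL

private theorem ne_of_primes {q : ℕ} [Fact q.Prime] (n : ℕ) (hn : ∀ p : ℕ, p.Prime → p ∣ n → p < 12)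
    (h12 : 12 ≤ q) : (n : ZMod q) ≠ 0 := by
  intro h
  rw [ZMod.natCast_eq_zero_iff] at h
  have := hn q Fact.out h
  omega

private theorem dvd_lt {n : ℕ} (a b c d e : ℕ) (h : n = 2 ^ a * 3 ^ b * 5 ^ c * 7 ^ d * 11 ^ e) :
    ∀ p : ℕ, p.Prime → p ∣ n → p < 12 := by
  intro p hp hd
  rw [h] at hd
  have key : ∀ r k : ℕ, r.Prime → r < 12 → p ∣ r ^ k → p < 12 := by
    intro r k hr hr12 h1
    have h2 := hp.dvd_of_dvd_pow h1
    rw [Nat.prime_dvd_prime_iff_eq hp hr] at h2
    omega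
  rcases (Nat.Prime.dvd_mul hp).1 hd with hd | hd
  · rcases (Nat.Prime.dvd_mul hp).1 hd with hd | hd
    · rcases (Nat.Prime.dvd_mul hp).1 hd with hd | hd
      · rcases (Nat.Prime.dvd_mul hp).1 hd with hd | hd
        · exact key 2 a Nat.prime_two (by norm_num) hd
        · exact key 3 b Nat.prime_three (by norm_num) hd
      · exact key 5 c Nat.prime_five (by norm_num) hd
    · exact key 7 d (by norm_num) (by norm_num) hd
  · exact key 11 e (by norm_num) (by norm_num) hd

theorem full {q : ℕ} [Fact q.Prime] (h12 : 12 ≤ q) (h4 : q % 4 = 3) (d : ℕ) (hd : d = 2 ∨ d = 3)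
    (hs : ∃ s : ZMod q, s ^ 2 = (d : ZMod q)) :
    ∃ (y : ℤ) (A B : ZMod q), SSj q (y : ZMod q) ∧ (y : ZMod q) ≠ 0 ∧ (y : ZMod q) ≠ 1728 ∧
      A ≠ 0 ∧ B ≠ 0 ∧ A ≠ B ∧
      256 * (A ^ 2 - A * B + B ^ 2) ^ 3 = (y : ZMod q) * (A * B * (A - B)) ^ 2 := by
  have h2 : (2 : ZMod q) ≠ 0 := by
    exact_mod_cast ne_of_primes (q := q) 2 (dvd_lt 1 0 0 0 0 (by norm_num)) h12
  have h3 : (3 : ZMod q) ≠ 0 := by
    exact_mod_cast ne_of_primes (q := q) 3 (dvd_lt 0 1 0 0 0 (by norm_num)) h12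
  obtain ⟨s, hs⟩ := hs
  rcases hd with rfl | rfl
  · have hs2 : s ^ 2 = 2 := by exact_mod_cast hs
    have h8 : q % 8 = 7 := by
      have h := (ZMod.exists_sq_eq_two_iff (p := q) (by omega)).1 ⟨s, by rw [← hs2]; ring⟩
      omega
    have hs0 : s ≠ 0 := by
      rintro rfl
      rw [zero_pow (by norm_num)] at hs2
      exact h2 hs2.symm
    have hAB : (-2 + s) * (-2 - s) = 2 := by linear_combination -hs2
    refine ⟨8000, -2 + s, -2 - s, ?_, ?_, ?_, ?_, ?_, ?_, ?_⟩
    · have h := ss2 (q := q) h8 (by omega)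
      exact_mod_cast h
    · have h := ne_of_primes (q := q) 8000 (dvd_lt 6 0 3 0 0 (by norm_num)) h12
      exact_mod_cast h
    · have h := ne_of_primes (q := q) 6272 (dvd_lt 7 0 0 2 0 (by norm_num)) h12
      intro h'
      apply h
      push_cast at h' ⊢
      linear_combination h'
    · intro h
      rw [h, zero_mul] at hAB
      exact h2 hAB.symm
    · intro h
      rw [h, mul_zero] at hAB
      exact h2 hAB.symm
    · intro h
      have h' : 2 * s = 0 := by linear_combination h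
      exact (mul_ne_zero h2 hs0) h'
    · have e1 : (-2 + s) ^ 2 - (-2 + s) * (-2 - s) + (-2 - s) ^ 2 = 10 := by
        linear_combination 3 * hs2
      have e2 : ((-2 + s) * (-2 - s) * (-2 + s - (-2 - s))) ^ 2 = 32 := by
        rw [hAB]
        linear_combination 16 * hs2
      rw [e1, e2]
      push_cast
      norm_num
  · have hs3 : s ^ 2 = 3 := by exact_mod_cast hs
    have hq3 : q % 3 = 2 := by
      have hne : q ≠ 3 := by omega
      have h := (ZMod.exists_sq_eq_prime_iff_of_mod_four_eq_three (p := q) (q := 3) h4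
        (by norm_num) hne).1 ⟨s, by push_cast; rw [← hs3]; ring⟩
      have hq0 : q % 3 ≠ 0 := by
        intro h0
        have h1 : 3 ∣ q := Nat.dvd_of_mod_eq_zero h0
        rw [Nat.prime_dvd_prime_iff_eq Nat.prime_three Fact.out] at h1
        omega
      have hq1 : q % 3 ≠ 1 := by
        intro h1
        apply h
        have : (q : ZMod 3) = 1 := by
          have e : (q : ZMod 3) = ((q % 3 : ℕ) : ZMod 3) := by simp
          rw [e, h1]
          simp
        rw [this]
        exact ⟨1, by simp⟩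
      omega
    have hs0 : s ≠ 0 := by
      rintro rfl
      rw [zero_pow (by norm_num)] at hs3
      exact h3 hs3.symm
    have hAB : (-3 + 2 * s) * (-3 - 2 * s) = -3 := by linear_combination -4 * hs3
    refine ⟨54000, -3 + 2 * s, -3 - 2 * s, ?_, ?_, ?_, ?_, ?_, ?_, ?_⟩
    · have h := ss3 (q := q) (by omega)
      exact_mod_cast h
    · have h := ne_of_primes (q := q) 54000 (dvd_lt 4 3 3 0 0 (by norm_num)) h12
      exact_mod_cast h
    · have h := ne_of_primes (q := q) 52272 (dvd_lt 4 3 0 0 2 (by norm_num)) h12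
      intro h'
      apply h
      push_cast at h' ⊢
      linear_combination h'
    · intro h
      rw [h, zero_mul] at hAB
      exact h3 (by linear_combination hAB)
    · intro h
      rw [h, mul_zero] at hAB
      exact h3 (by linear_combination hAB)
    · intro h
      have h' : 2 * (2 * s) = 0 := by linear_combination h
      exact (mul_ne_zero h2 (mul_ne_zero h2 hs0)) h'
    · have e1 : (-3 + 2 * s) ^ 2 - (-3 + 2 * s) * (-3 - 2 * s) + (-3 - 2 * s) ^ 2 = 45 := by
        linear_combination 12 * hs3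
      have e2 : ((-3 + 2 * s) * (-3 - 2 * s) * (-3 + 2 * s - (-3 - 2 * s))) ^ 2 = 432 := by
        rw [hAB]
        linear_combination 144 * hs3
      rw [e1, e2]
      push_cast
      norm_num

end Pool.Agent.SS.DL
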