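import Mathlib
import Pool.Agent.Work.MP_a5099b_nt.Defs
import Pool.Agent.Work.MP_a5099b_nt.C.EHas

/-!
# Module D5/HzP (M): the Hasse coefficient of the Legendre curve as a polynomial in `A`

`a = -(A² - A B + B²) / 3`, `b = -(2 A³ - 3 A² B - 3 A B² + 2 B³) / 27` (the short model of `x (x - A)(x - B)`, shift by `(A + B) / 3`), `m = (q - 1) / 2`.

PROOF. Work in `k[X]` (the variable is `A`): `P = Hasse q aX bX ∈ k[X]` with `aX = C (-1/3) * (X ^ 2 - C B * X + C B ^ 2)`, `bX = C (-1/27) * (2 X ^ 3 - 3 C B X ^ 2 - 3 C B ^ 2 X + 2 C B ^ 3)`; by `Hasse_map` (`C.EHas`, the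
evaluation homomorphism) `P.eval A` is the Hasse coefficient for `A`. Degree: `natDegree P ≤ m`: by induction on `n`, `natDegree (((X ^ 3 + C aX * X + C bX) ^ n).coeff i) ≤ 3 n - i` and the coefficient is zero for
`i > 3 n` (the coefficient of `X ^ i` of `X ^ 3 + C aX * X + C bX` has degree `≤ 3 - i`; `Polynomial.coeff_mul`); for `n = m`, `i = q - 1 = 2 m` this is `m`. Not zero: `A = 0`: `a = -B²/3`, `b = -2 B³/27`,
`x³ + a x + b = (x + c)² (x - 2 c)`, `c = B / 3`. So the coefficient of `x ^ (q - 1)` in `(x + c) ^ (q - 1) (x - 2 c) ^ m`; `(x + c) ^ (q - 1) = ∑_{i ≤ q - 1} (-c) ^ (q - 1 - i) x ^ i` (because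
`(x + c) ^ (q-1) (x + c) = x ^ q + c ^ q`, and the right side times `(x + c)` is the same, `q` odd; `k[x]` is a domain), so with `(x - 2 c) ^ m = ∑ p_j x ^ j` the coefficient is
`∑_j p_j (-c) ^ j = (-c - 2 c) ^ m = (-B) ^ m ≠ 0`. So `P ≠ 0` has at most `m` roots (`Polynomial.card_roots'`).
-/

set_option autoImplicit false

namespace Pool.Agent.SS.DL

open Polynomial

private def W {k : Type} [CommRing k] (F : k[X][X]) (N : ℕ) : Prop :=
  ∀ i m, N < i + m → (F.coeff i).coeff m = 0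

private theorem W_mul {k : Type} [CommRing k] {F G : k[X][X]} {N M : ℕ} (hF : W F N) (hG : W G M) :
    W (F * G) (N + M) := by
  intro i m h
  rw [coeff_mul, finsetSum_coeff]
  apply Finset.sum_eq_zero
  rintro ⟨i1, i2⟩ hi
  have hi' : i1 + i2 = i := Finset.HasAntidiagonal.mem_antidiagonal.mp hi
  rw [coeff_mul]
  apply Finset.sum_eq_zero
  rintro ⟨m1, m2⟩ hm
  have hm' : m1 + m2 = m := Finset.HasAntidiagonal.mem_antidiagonal.mp hm
  change (F.coeff i1).coeff m1 * (G.coeff i2).coeff m2 = 0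
  by_cases h1 : N < i1 + m1
  · rw [hF i1 m1 h1, zero_mul]
  · rw [hG i2 m2 (by omega), mul_zero]

private theorem W_pow {k : Type} [CommRing k] {F : k[X][X]} {N : ℕ} (hF : W F N) (n : ℕ) :
    W (F ^ n) (N * n) := by
  induction n with
  | zero =>
    intro i m h
    rw [pow_zero, coeff_one]
    split_ifs with h0
    · subst h0
      rw [coeff_one, if_neg (by omega)]
    · rw [coeff_zero]
  | succ n ih =>
    rw [pow_succ, Nat.mul_succ]
    exact W_mul ih hF

private theorem W_add {k : Type} [CommRing k] {F G : k[X][X]} {N : ℕ} (hF : W F N) (hG : W G N) :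
    W (F + G) N := by
  intro i m h
  rw [coeff_add, coeff_add, hF i m h, hG i m h, add_zero]

private theorem W_C_mul_X_pow {k : Type} [CommRing k] {a : k[X]} {d e N : ℕ} (ha : a.natDegree ≤ d)
    (h : d + e ≤ N) : W (C a * X ^ e) N := by
  intro i m hi
  rw [coeff_C_mul_X_pow]
  split_ifs with h0
  · exact coeff_eq_zero_of_natDegree_lt (by omega)
  · rw [coeff_zero]

private theorem hz_deg {k : Type} [CommRing k] (a b : k[X]) (ha : a.natDegree ≤ 2)
    (hb : b.natDegree ≤ 3) (m : ℕ) :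
    (((X ^ 3 + C a * X + C b : k[X][X]) ^ m).coeff (2 * m)).natDegree ≤ m := by
  rw [natDegree_le_iff_coeff_eq_zero]
  intro N hN
  have h1 : W (X ^ 3 + C a * X + C b : k[X][X]) 3 := by
    refine W_add (W_add ?_ ?_) ?_
    · have := W_C_mul_X_pow (k := k) (a := 1) (d := 0) (e := 3) (N := 3) (by simp) (by norm_num)
      simpa using this
    · have := W_C_mul_X_pow (k := k) (a := a) (d := 2) (e := 1) (N := 3) ha (by norm_num)
      simpa using this
    · have := W_C_mul_X_pow (k := k) (a := b) (d := 3) (e := 0) (N := 3) hb (by norm_num)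
      simpa using this
  exact W_pow h1 m (2 * m) N (by omega)

private theorem hz_zero {q : ℕ} (hq : q.Prime) (hodd : Odd q) (k : Type) [Field k] [CharP k q]
    (c : k) (m : ℕ) (hm : q - 1 = 2 * m) :
    (((X + C c) ^ 2 * (X - C (2 * c)) : k[X]) ^ m).coeff (q - 1) = (-(3 * c)) ^ m := by
  have hq1 : 1 ≤ q := hq.one_lt.le
  have hfact : Fact q.Prime := ⟨hq⟩
  have hS : (X + C c : k[X]) ^ (q - 1) =
      ∑ i ∈ Finset.range q, X ^ i * (C (-c)) ^ (q - 1 - i) := by
    have hne : (X + C c : k[X]) ≠ 0 := X_add_C_ne_zero c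
    apply mul_right_cancel₀ hne
    have h1 : (X + C c : k[X]) ^ (q - 1) * (X + C c) = X ^ q + C c ^ q := by
      rw [← pow_succ, Nat.sub_add_cancel hq1]
      exact add_pow_char (X : k[X]) (C c) q
    have h2 := (Commute.all (X : k[X]) (C (-c))).geom_sum₂_mul q
    have h3 : (X - C (-c) : k[X]) = X + C c := by
      rw [C_neg, sub_neg_eq_add]
    rw [h3] at h2
    rw [h1, h2, C_neg, hodd.neg_pow, sub_neg_eq_add]
  have hG : (X - C (2 * c) : k[X]).natDegree ≤ 1 := by
    exact (natDegree_X_sub_C (2 * c)).le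
  have hGm : ((X - C (2 * c) : k[X]) ^ m).natDegree < q := by
    have := natDegree_pow_le_of_le m hG
    omega
  rw [mul_pow, ← pow_mul, ← hm, hS, Finset.sum_mul, finsetSum_coeff]
  have h4 : ∀ i ∈ Finset.range q, ((X ^ i * (C (-c)) ^ (q - 1 - i)) *
      (X - C (2 * c) : k[X]) ^ m).coeff (q - 1) =
      ((X - C (2 * c) : k[X]) ^ m).coeff (q - 1 - i) * (-c) ^ (q - 1 - i) := by
    intro i hi
    rw [Finset.mem_range] at hi
    rw [mul_assoc, coeff_X_pow_mul', if_pos (by omega), ← C_pow, coeff_C_mul, mul_comm]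
  rw [Finset.sum_congr rfl h4]
  have h5 := Finset.sum_range_reflect (fun j => ((X - C (2 * c) : k[X]) ^ m).coeff j * (-c) ^ j) q
  rw [h5, ← eval_eq_sum_range' hGm, eval_pow, eval_sub, eval_X, eval_C]
  congr 1
  ring

private theorem c_ne_zero {q : ℕ} (h5 : 5 ≤ q) (k : Type) [Field k] [CharP k q] :
    (3 : k) ≠ 0 := by
  intro h0
  have h : ((3 : ℕ) : k) = 0 := by exact_mod_cast h0
  rw [CharP.cast_eq_zero_iff k q] at h
  have := Nat.le_of_dvd (by norm_num) h
  omega

theorem hz_roots {q : ℕ} (hq : q.Prime) (h5 : 5 ≤ q) (k : Type) [Field k] [Finite k] [CharP k q] (B : k)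
    (hB : B ≠ 0) :
    {A : k | Hasse q (-(A ^ 2 - A * B + B ^ 2) / 3)
      (-(2 * A ^ 3 - 3 * A ^ 2 * B - 3 * A * B ^ 2 + 2 * B ^ 3) / 27) = 0}.ncard ≤ (q - 1) / 2 := by
  classical
  have h3 := c_ne_zero h5 k
  have h27 : (27 : k) ≠ 0 := by
    have : (27 : k) = 3 ^ 3 := by norm_num
    rw [this]
    exact pow_ne_zero _ h3
  have hodd : Odd q := hq.odd_of_ne_two (by omega)
  obtain ⟨m, hm⟩ : ∃ m, q - 1 = 2 * m := by
    obtain ⟨t, ht⟩ := hodd
    exact ⟨t, by omega⟩
  have hm2 : (q - 1) / 2 = m := by omega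
  set a : k[X] := C (-1 / 3) * (X ^ 2 - C B * X + C (B ^ 2)) with ha
  set b : k[X] := C (-1 / 27) * (C 2 * X ^ 3 - C (3 * B) * X ^ 2 - C (3 * B ^ 2) * X + C (2 * B ^ 3))
    with hb
  have hda : a.natDegree ≤ 2 := by
    rw [ha]
    compute_degree
  have hdb : b.natDegree ≤ 3 := by
    rw [hb]
    compute_degree
  set P : k[X] := Hasse q a b with hP
  have hev : ∀ A : k, P.eval A = Hasse q (-(A ^ 2 - A * B + B ^ 2) / 3)
      (-(2 * A ^ 3 - 3 * A ^ 2 * B - 3 * A * B ^ 2 + 2 * B ^ 3) / 27) := by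
    intro A
    have h := Hasse_map (p := q) (evalRingHom A) a b
    rw [coe_evalRingHom] at h
    rw [hP, ← h]
    congr 1
    · rw [ha]
      simp only [eval_mul, eval_C, eval_add, eval_sub, eval_pow, eval_X]
      ring
    · rw [hb]
      simp only [eval_mul, eval_C, eval_add, eval_sub, eval_pow, eval_X]
      ring
  have hdeg : P.natDegree ≤ m := by
    rw [hP]
    unfold Hasse
    rw [hm2, hm]
    exact hz_deg a b hda hdb m
  have hne : P ≠ 0 := by
    intro h0
    have h := hev 0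
    rw [h0, eval_zero] at h
    have h1 : (X ^ 3 + C (-((0 : k) ^ 2 - 0 * B + B ^ 2) / 3) * X +
        C (-(2 * 0 ^ 3 - 3 * 0 ^ 2 * B - 3 * 0 * B ^ 2 + 2 * B ^ 3) / 27) : k[X]) =
        (X + C (B / 3)) ^ 2 * (X - C (2 * (B / 3))) := by
      have e1 : -((0 : k) ^ 2 - 0 * B + B ^ 2) / 3 = -(3 * (B / 3) ^ 2) := by
        field_simp
        ring
      have e2 : -(2 * 0 ^ 3 - 3 * 0 ^ 2 * B - 3 * 0 * B ^ 2 + 2 * B ^ 3) / 27 =
          -(2 * (B / 3) ^ 3) := by
        field_simp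
        ring
      rw [e1, e2]
      simp only [C_neg, C_mul, C_pow]
      have e3 : (C (3 : k) : k[X]) = 3 := map_ofNat C 3
      have e4 : (C (2 : k) : k[X]) = 2 := map_ofNat C 2
      rw [e3, e4]
      ring
    unfold Hasse at h
    rw [h1, hm2, hz_zero hq hodd k (B / 3) m hm] at h
    have h2 : -(3 * (B / 3)) = -B := by
      field_simp
    rw [h2] at h
    exact pow_ne_zero m (neg_ne_zero.mpr hB) h.symm
  have hsub : {A : k | Hasse q (-(A ^ 2 - A * B + B ^ 2) / 3)
      (-(2 * A ^ 3 - 3 * A ^ 2 * B - 3 * A * B ^ 2 + 2 * B ^ 3) / 27) = 0} ⊆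
      (P.roots.toFinset : Set k) := by
    classical
    intro A hA
    rw [Set.mem_ofPred_eq, ← hev] at hA
    rw [Finset.mem_coe, Multiset.mem_toFinset, mem_roots hne]
    exact hA
  rw [hm2]
  classical
  calc _ ≤ (P.roots.toFinset : Set k).ncard := Set.ncard_le_ncard hsub (Finset.finite_toSet _)
    _ = P.roots.toFinset.card := Set.ncard_coe_finset _
    _ ≤ P.roots.card := Multiset.toFinset_card_le _
    _ ≤ P.natDegree := card_roots' P
    _ ≤ m := hdeg

end Pool.Agent.SS.DL
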