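import Mathlib
import Pool.Agent.Work.MP_a5099b_nt.Defs
import Pool.Agent.Work.MP_a5099b_nt.C.EHas
import Pool.Agent.Work.MP_a5099b_nt.D5.HzP

/-!
# Module D5/HzL (M): at least a third of the Legendre curves are nonsingular and ordinary

PROOF. With `a, b` as in `D5/HzP`: `4 a³ + 27 b² = -(A B (A - B))²` and `1728 * 4 a³ = y (4 a³ + 27 b²)` for `y = 256 (A² - A B + B²)³ / (A B (A - B))²`. If `A, B, A - B ≠ 0` and `SSj q y` then `Hasse q a b = 0` (`SSj_all`). So the
complement of the set is contained in: `B = 0` (`Q = card k` pairs), and for every `B ≠ 0` the `A` with `A = 0` or `A = B` or Hasse zero: at most `2 + (q - 1) / 2`. Total at most `Q + Q (q + 3) / 2 = Q (q + 5) / 2`, and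
`3 Q (q + 5) / 2 ≤ 2 Q²` as `3 q + 15 ≤ 4 q ≤ 4 Q` (`q ≥ 17`; `q ≤ Q`).
-/

set_option autoImplicit false

namespace Pool.Agent.SS.DL

private theorem hz_key {q : ℕ} (hq : q.Prime) (h5 : 5 ≤ q) (k : Type) [Field k] [CharP k q]
    (A B : k) (hA : A ≠ 0) (hB : B ≠ 0) (hAB : A ≠ B)
    (h : SSj q (256 * (A ^ 2 - A * B + B ^ 2) ^ 3 / (A * B * (A - B)) ^ 2)) :
    Hasse q (-(A ^ 2 - A * B + B ^ 2) / 3)
      (-(2 * A ^ 3 - 3 * A ^ 2 * B - 3 * A * B ^ 2 + 2 * B ^ 3) / 27) = 0 := by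
  have h3 : (3 : k) ≠ 0 := by
    intro h0
    have h : ((3 : ℕ) : k) = 0 := by exact_mod_cast h0
    rw [CharP.cast_eq_zero_iff k q] at h
    have := Nat.le_of_dvd (by norm_num) h
    omega
  have hD : A * B * (A - B) ≠ 0 := mul_ne_zero (mul_ne_zero hA hB) (sub_ne_zero.mpr hAB)
  have e1 : 4 * (-(A ^ 2 - A * B + B ^ 2) / 3) ^ 3 +
      27 * (-(2 * A ^ 3 - 3 * A ^ 2 * B - 3 * A * B ^ 2 + 2 * B ^ 3) / 27) ^ 2 =
      -(A * B * (A - B)) ^ 2 := by
    have h27 : (27 : k) ≠ 0 := by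
      have : (27 : k) = 3 ^ 3 := by norm_num
      rw [this]
      exact pow_ne_zero _ h3
    field_simp
    ring
  refine SSj_all hq h5 h ?_ ?_
  · rw [e1]
    exact neg_ne_zero.mpr (pow_ne_zero _ hD)
  · rw [e1]
    have e2 : 256 * (A ^ 2 - A * B + B ^ 2) ^ 3 / (A * B * (A - B)) ^ 2 *
        -(A * B * (A - B)) ^ 2 = -(256 * (A ^ 2 - A * B + B ^ 2) ^ 3) := by
      have := pow_ne_zero 2 hD
      rw [mul_neg, div_mul_cancel₀ _ this]
    rw [e2]
    have e3 : (1728 : k) * (4 * (-(A ^ 2 - A * B + B ^ 2) / 3) ^ 3) =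
        -(256 * (A ^ 2 - A * B + B ^ 2) ^ 3) := by
      field_simp
      ring
    exact e3

theorem ordinary_third {q : ℕ} (hq : q.Prime) (h17 : 17 ≤ q) (k : Type) [Field k] [Finite k] [CharP k q] :
    Nat.card k ^ 2 ≤ 3 * {P : k × k | P.1 ≠ 0 ∧ P.2 ≠ 0 ∧ P.1 ≠ P.2 ∧
      ¬ SSj q (256 * (P.1 ^ 2 - P.1 * P.2 + P.2 ^ 2) ^ 3 / (P.1 * P.2 * (P.1 - P.2)) ^ 2)}.ncard := by
  classical
  have := Fintype.ofFinite k
  have hfact : Fact q.Prime := ⟨hq⟩
  set S : Set (k × k) := {P : k × k | P.1 ≠ 0 ∧ P.2 ≠ 0 ∧ P.1 ≠ P.2 ∧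
      ¬ SSj q (256 * (P.1 ^ 2 - P.1 * P.2 + P.2 ^ 2) ^ 3 / (P.1 * P.2 * (P.1 - P.2)) ^ 2)} with hS
  set Q : ℕ := Nat.card k with hQ
  have hQq : q ≤ Q := by
    obtain ⟨n, -, hn⟩ := FiniteField.card k q
    rw [hQ, Nat.card_eq_fintype_card, hn]
    exact Nat.le_self_pow n.ne_zero q
  have hsum : S.ncard + Sᶜ.ncard = Q ^ 2 := by
    rw [Set.ncard_add_ncard_compl, Nat.card_prod, pow_two]
  have hT : Sᶜ.ncard ≤ Q + Q * (2 + (q - 1) / 2) := by
    rw [Set.ncard_eq_toFinset_card']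
    rw [Finset.card_eq_sum_card_fiberwise (f := Prod.snd) (t := Finset.univ)
      (fun x _ => Finset.mem_coe.mpr (Finset.mem_univ _))]
    have hb : ∀ b ∈ (Finset.univ : Finset k), (Sᶜ.toFinset.filter (fun a => a.2 = b)).card ≤
        (if b = 0 then Q else 0) + (2 + (q - 1) / 2) := by
      intro b _
      by_cases hb0 : b = 0
      · rw [if_pos hb0]
        have h1 : (Sᶜ.toFinset.filter (fun a => a.2 = b)).card ≤ (Finset.univ : Finset k).card := by
          refine Finset.card_le_card_of_injOn Prod.fst (fun x _ => Finset.mem_coe.mpr (Finset.mem_univ _)) ?_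
          intro x hx y hy hxy
          rw [Finset.mem_coe, Finset.mem_filter] at hx hy
          exact Prod.ext hxy (hx.2.trans hy.2.symm)
        rw [Finset.card_univ, ← Nat.card_eq_fintype_card, ← hQ] at h1
        omega
      · rw [if_neg hb0, zero_add]
        set H : Set k := {A : k | Hasse q (-(A ^ 2 - A * b + b ^ 2) / 3)
          (-(2 * A ^ 3 - 3 * A ^ 2 * b - 3 * A * b ^ 2 + 2 * b ^ 3) / 27) = 0} with hH
        have h2 : H.ncard ≤ (q - 1) / 2 := hz_roots hq (by omega) k b hb0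
        have h3 : (Sᶜ.toFinset.filter (fun a => a.2 = b)).card ≤
            (({0, b} : Finset k) ∪ H.toFinset).card := by
          refine Finset.card_le_card_of_injOn Prod.fst ?_ ?_
          · intro x hx
            rw [Finset.mem_coe, Finset.mem_filter, Set.mem_toFinset, Set.mem_compl_iff] at hx
            obtain ⟨hx1, hx2⟩ := hx
            rw [Finset.mem_coe, Finset.mem_union, Set.mem_toFinset]
            by_contra hcon
            rw [not_or] at hcon
            obtain ⟨hc1, hc2⟩ := hcon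
            rw [Finset.mem_insert, Finset.mem_singleton, not_or] at hc1
            apply hx1
            refine ⟨hc1.1, by rw [hx2]; exact hb0, by rw [hx2]; exact hc1.2, ?_⟩
            intro hss
            rw [hx2] at hss
            exact hc2 (hz_key hq (by omega) k x.1 b hc1.1 hb0 hc1.2 hss)
          · intro x hx y hy hxy
            rw [Finset.mem_coe, Finset.mem_filter] at hx hy
            exact Prod.ext hxy (hx.2.trans hy.2.symm)
        rw [Set.ncard_eq_toFinset_card'] at h2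
        have h4 := Finset.card_union_le ({0, b} : Finset k) H.toFinset
        have h5 : ({0, b} : Finset k).card ≤ 2 := Finset.card_le_two
        omega
    refine (Finset.sum_le_sum hb).trans ?_
    rw [Finset.sum_add_distrib, Finset.sum_ite_eq' Finset.univ (0 : k) (fun _ => Q),
      if_pos (Finset.mem_univ _), Finset.sum_const, Finset.card_univ, ← Nat.card_eq_fintype_card,
      ← hQ, smul_eq_mul]
  have h6 : 3 * Sᶜ.ncard ≤ 2 * Q ^ 2 := by
    have h7 : 2 * ((q - 1) / 2) ≤ q - 1 := Nat.mul_div_le (q - 1) 2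
    have h8 : 2 * (Q + Q * (2 + (q - 1) / 2)) ≤ Q * (q + 5) := by
      have : 2 * (Q + Q * (2 + (q - 1) / 2)) = Q * (6 + 2 * ((q - 1) / 2)) := by ring
      rw [this]
      exact Nat.mul_le_mul_left Q (by omega)
    have h9 : 3 * (Q * (q + 5)) ≤ 4 * Q ^ 2 := by
      have : 3 * (Q * (q + 5)) = Q * (3 * (q + 5)) := by ring
      rw [this, pow_two]
      have h10 : 3 * (q + 5) ≤ 4 * Q := by omega
      calc Q * (3 * (q + 5)) ≤ Q * (4 * Q) := Nat.mul_le_mul_left Q h10
        _ = 4 * (Q * Q) := by ring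
    omega
  omega

end Pool.Agent.SS.DL
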