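import Mathlib

/-!
# Module D5/PairL (S): the pairs with given invariant

PROOF. The pairs `(t A, t B)`, `t ≠ 0`, have the property (both sides are homogeneous of degree 6) and are different (`A ≠ 0`).
-/

set_option autoImplicit false

namespace Pool.Agent.SS.DL

theorem pairs_ge (k : Type) [Field k] [Finite k] (y A B : k) (hA : A ≠ 0) (hB : B ≠ 0) (hAB : A ≠ B)
    (h : 256 * (A ^ 2 - A * B + B ^ 2) ^ 3 = y * (A * B * (A - B)) ^ 2) :
    Nat.card k ≤ {P : k × k | P.1 ≠ 0 ∧ P.2 ≠ 0 ∧ P.1 ≠ P.2 ∧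
      256 * (P.1 ^ 2 - P.1 * P.2 + P.2 ^ 2) ^ 3 = y * (P.1 * P.2 * (P.1 - P.2)) ^ 2}.ncard + 1 := by
  classical
  set S : Set (k × k) := {P : k × k | P.1 ≠ 0 ∧ P.2 ≠ 0 ∧ P.1 ≠ P.2 ∧
      256 * (P.1 ^ 2 - P.1 * P.2 + P.2 ^ 2) ^ 3 = y * (P.1 * P.2 * (P.1 - P.2)) ^ 2} with hS
  let f : k → k × k := fun t => (t * A, t * B)
  have hf : Function.Injective f := by
    intro s t hst
    have h1 : s * A = t * A := congrArg Prod.fst hst
    exact mul_right_cancel₀ hA h1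
  have hsub : f '' ({0}ᶜ : Set k) ⊆ S := by
    rintro _ ⟨t, ht, rfl⟩
    have ht0 : t ≠ 0 := ht
    refine ⟨mul_ne_zero ht0 hA, mul_ne_zero ht0 hB, fun he => hAB (mul_left_cancel₀ ht0 he), ?_⟩
    show 256 * ((t * A) ^ 2 - t * A * (t * B) + (t * B) ^ 2) ^ 3
      = y * (t * A * (t * B) * (t * A - t * B)) ^ 2
    linear_combination t ^ 6 * h
  have h1 : (f '' ({0}ᶜ : Set k)).ncard ≤ S.ncard := Set.ncard_le_ncard hsub (Set.toFinite S)
  rw [Set.ncard_image_of_injective _ hf] at h1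
  have h2 : ({0}ᶜ : Set k).ncard + ({0} : Set k).ncard = Nat.card k := by
    rw [add_comm]; exact Set.ncard_add_ncard_compl ({0} : Set k)
  rw [Set.ncard_singleton] at h2
  omega

end Pool.Agent.SS.DL
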