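import Mathlib
import Pool.Agent.Work.MP_a5099b_nt.Defs
import Pool.Agent.Work.MP_a5099b_nt.SpecC
import Pool.Agent.Work.MP_a5099b_nt.J.Stmt
import Pool.Agent.Work.MP_a5099b_nt.D5.DDefs

/-!
# Module D5/SigL (M): the places above `q` for a Legendre curve with good residues

`curL A B`: `c₄ = 16 (A² - A B + B²)`, `Δ = 16 (A B (A - B))²`, so `c₄³ / Δ = 256 (A² - A B + B²)³ / (A B (A - B))²`.

PROOF. As `D4/SigD` (bridge `card_iff`, `SSj_map`, see `J/Ordn.lean`, `J/Res.lean` for the field structure and the characteristic of `O/v`). At `v1`: `W mod v1` has nonzero discriminant and invariant `(y : k)`, supersingular by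
`SSj_map`, so `Nat.card points ≡ 1 [MOD q]` (`card_iff`): `PSS q W v1` (`α = c₄³`, `β = Δ`), `f = 1`. For `v ≠ v1` above `q`, `PSS` gives `W'` with invariant `c₄³ / Δ mod v`, which is supersingular by `card_iff`: contradiction
with `hoth`. `JMod W v1 n`: `n = y` in `O/v1`, hence in `ZMod q`.
-/

set_option autoImplicit false

namespace Pool.Agent.SS.DL

open NumberField IsDedekindDomain

variable {K : Type} [Field K] [NumberField K]

omit [NumberField K] in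
private theorem charP_quot (v : HeightOneSpectrum (𝓞 K)) {p : ℕ} (hp : p.Prime)
    (hpv : (p : 𝓞 K) ∈ v.asIdeal) : CharP (𝓞 K ⧸ v.asIdeal) p := by
  have : Nontrivial (𝓞 K ⧸ v.asIdeal) := Ideal.Quotient.nontrivial_iff.mpr v.isPrime.ne_top
  have h0 : ((p : ℕ) : 𝓞 K ⧸ v.asIdeal) = 0 := by
    rw [← map_natCast (Ideal.Quotient.mk v.asIdeal)]
    exact Ideal.Quotient.eq_zero_iff_mem.mpr hpv
  exact (CharP.charP_iff_prime_eq_zero hp).mpr h0

private theorem ne16 {k : Type*} [Field k] {q : ℕ} (h5 : 5 ≤ q) [CharP k q] : (16 : k) ≠ 0 := by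
  have h2 : (2 : k) ≠ 0 := by
    intro h0
    have h3 : ((2 : ℕ) : k) = 0 := by exact_mod_cast h0
    rw [CharP.cast_eq_zero_iff k q 2] at h3
    have := Nat.le_of_dvd (by norm_num) h3
    omega
  have : (16 : k) = 2 ^ 4 := by norm_num
  rw [this]
  exact pow_ne_zero 4 h2

private theorem leg_Δ {k : Type*} [CommRing k] (a b : k) :
    (⟨0, -(a + b), 0, a * b, 0⟩ : WeierstrassCurve k).Δ = 16 * (a * b * (a - b)) ^ 2 := by
  simp only [WeierstrassCurve.Δ, WeierstrassCurve.b₂, WeierstrassCurve.b₄,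
    WeierstrassCurve.b₆, WeierstrassCurve.b₈]
  ring

private theorem leg_c₄ {k : Type*} [CommRing k] (a b : k) :
    (⟨0, -(a + b), 0, a * b, 0⟩ : WeierstrassCurve k).c₄ = 16 * (a ^ 2 - a * b + b ^ 2) := by
  simp only [WeierstrassCurve.c₄, WeierstrassCurve.b₂, WeierstrassCurve.b₄]
  ring

private theorem map_curL {k : Type*} [CommRing k] (f : 𝓞 K →+* k) (A B : 𝓞 K) :
    (curL A B).map f = ⟨0, -(f A + f B), 0, f A * f B, 0⟩ := by
  simp [curL, WeierstrassCurve.map]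

theorem sigL_eq {q : ℕ} [Fact q.Prime] (h5 : 5 ≤ q) (A B : 𝓞 K) (v1 : HeightOneSpectrum (𝓞 K))
    (hq1 : (q : 𝓞 K) ∈ v1.asIdeal) (hc1 : Nat.card (𝓞 K ⧸ v1.asIdeal) = q) (y : ℤ)
    (hss : SSj q (y : ZMod q))
    (hA : Ideal.Quotient.mk v1.asIdeal A ≠ 0) (hB : Ideal.Quotient.mk v1.asIdeal B ≠ 0)
    (hAB : Ideal.Quotient.mk v1.asIdeal A ≠ Ideal.Quotient.mk v1.asIdeal B)
    (hj1 : 256 * ((Ideal.Quotient.mk v1.asIdeal A) ^ 2 - Ideal.Quotient.mk v1.asIdeal A *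
        Ideal.Quotient.mk v1.asIdeal B + (Ideal.Quotient.mk v1.asIdeal B) ^ 2) ^ 3 =
      (y : 𝓞 K ⧸ v1.asIdeal) * (Ideal.Quotient.mk v1.asIdeal A * Ideal.Quotient.mk v1.asIdeal B *
        (Ideal.Quotient.mk v1.asIdeal A - Ideal.Quotient.mk v1.asIdeal B)) ^ 2)
    (hoth : ∀ v : HeightOneSpectrum (𝓞 K), (q : 𝓞 K) ∈ v.asIdeal → v ≠ v1 →
      letI : Field (𝓞 K ⧸ v.asIdeal) := Ideal.Quotient.field v.asIdeal
      Ideal.Quotient.mk v.asIdeal A ≠ 0 ∧ Ideal.Quotient.mk v.asIdeal B ≠ 0 ∧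
      Ideal.Quotient.mk v.asIdeal A ≠ Ideal.Quotient.mk v.asIdeal B ∧
      ¬ SSj q (256 * ((Ideal.Quotient.mk v.asIdeal A) ^ 2 - Ideal.Quotient.mk v.asIdeal A *
        Ideal.Quotient.mk v.asIdeal B + (Ideal.Quotient.mk v.asIdeal B) ^ 2) ^ 3 /
        (Ideal.Quotient.mk v.asIdeal A * Ideal.Quotient.mk v.asIdeal B *
          (Ideal.Quotient.mk v.asIdeal A - Ideal.Quotient.mk v.asIdeal B)) ^ 2)) :
    (curL A B).Δ ≠ 0 ∧ Sig q (curL A B) = {v1} ∧
      ∀ n : ℤ, JMod (curL A B) v1 n → (n : ZMod q) = (y : ZMod q) := by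
  classical
  have hq : q.Prime := Fact.out
  let _ : Field (𝓞 K ⧸ v1.asIdeal) := Ideal.Quotient.field v1.asIdeal
  have hch1 : CharP (𝓞 K ⧸ v1.asIdeal) q := charP_quot v1 hq hq1
  have hfin1 : Finite (𝓞 K ⧸ v1.asIdeal) := Ideal.finiteQuotientOfFreeOfNeBot v1.asIdeal v1.ne_bot
  let _ : Fintype (𝓞 K ⧸ v1.asIdeal) := Fintype.ofFinite _
  set m1 := Ideal.Quotient.mk v1.asIdeal with hm1
  have hΔm : ((curL A B).map m1).Δ ≠ 0 := by
    rw [map_curL, leg_Δ]
    exact mul_ne_zero (ne16 h5)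
      (pow_ne_zero 2 (mul_ne_zero (mul_ne_zero hA hB) (sub_ne_zero.mpr hAB)))
  have hcm : ((curL A B).map m1).c₄ ^ 3 = (y : 𝓞 K ⧸ v1.asIdeal) * ((curL A B).map m1).Δ := by
    rw [map_curL, leg_Δ, leg_c₄]
    linear_combination 16 * hj1
  have hΔ1 : (curL A B).Δ ∉ v1.asIdeal := by
    intro h
    apply hΔm
    rw [WeierstrassCurve.map_Δ]
    exact Ideal.Quotient.eq_zero_iff_mem.mpr h
  refine ⟨?_, ?_, ?_⟩
  · intro h
    apply hΔ1
    rw [h]
    exact v1.asIdeal.zero_mem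
  · ext v
    simp only [Set.mem_singleton_iff]
    constructor
    · rintro ⟨hqv, -, W', hW', ⟨α, β, hβ, hj, hj'⟩, hcard⟩
      by_contra hne
      obtain ⟨ha0, hb0, hab0, hH⟩ := hoth v hqv hne
      let _ : Field (𝓞 K ⧸ v.asIdeal) := Ideal.Quotient.field v.asIdeal
      have hch : CharP (𝓞 K ⧸ v.asIdeal) q := charP_quot v hq hqv
      have hfin : Finite (𝓞 K ⧸ v.asIdeal) :=
        Ideal.finiteQuotientOfFreeOfNeBot v.asIdeal v.ne_bot
      let _ : Fintype (𝓞 K ⧸ v.asIdeal) := Fintype.ofFinite _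
      have hβ0 : Ideal.Quotient.mk v.asIdeal β ≠ 0 := fun h0 =>
        hβ (Ideal.Quotient.eq_zero_iff_mem.mp h0)
      have h1 := (card_iff hq h5 W' hW').mp hcard
      have h2 : W'.c₄ ^ 3 / W'.Δ = Ideal.Quotient.mk v.asIdeal α / Ideal.Quotient.mk v.asIdeal β := by
        rw [div_eq_div_iff hW' hβ0, mul_comm]
        exact hj'
      rw [h2] at h1
      apply hH
      have hD : (Ideal.Quotient.mk v.asIdeal A * Ideal.Quotient.mk v.asIdeal B *
          (Ideal.Quotient.mk v.asIdeal A - Ideal.Quotient.mk v.asIdeal B)) ^ 2 ≠ 0 :=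
        pow_ne_zero 2 (mul_ne_zero (mul_ne_zero ha0 hb0) (sub_ne_zero.mpr hab0))
      have h3 := congrArg (Ideal.Quotient.mk v.asIdeal) hj
      rw [map_mul, map_mul, map_pow, ← WeierstrassCurve.map_c₄, ← WeierstrassCurve.map_Δ, map_curL,
        leg_Δ, leg_c₄] at h3
      have h16 : (16 : 𝓞 K ⧸ v.asIdeal) ≠ 0 := ne16 h5
      have h4 : Ideal.Quotient.mk v.asIdeal β * (256 * ((Ideal.Quotient.mk v.asIdeal A) ^ 2 -
            Ideal.Quotient.mk v.asIdeal A * Ideal.Quotient.mk v.asIdeal B +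
            (Ideal.Quotient.mk v.asIdeal B) ^ 2) ^ 3) =
          Ideal.Quotient.mk v.asIdeal α *
            (Ideal.Quotient.mk v.asIdeal A * Ideal.Quotient.mk v.asIdeal B *
              (Ideal.Quotient.mk v.asIdeal A - Ideal.Quotient.mk v.asIdeal B)) ^ 2 := by
        apply mul_left_cancel₀ h16
        linear_combination h3
      have h5' : 256 * ((Ideal.Quotient.mk v.asIdeal A) ^ 2 - Ideal.Quotient.mk v.asIdeal A *
          Ideal.Quotient.mk v.asIdeal B + (Ideal.Quotient.mk v.asIdeal B) ^ 2) ^ 3 /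
          (Ideal.Quotient.mk v.asIdeal A * Ideal.Quotient.mk v.asIdeal B *
            (Ideal.Quotient.mk v.asIdeal A - Ideal.Quotient.mk v.asIdeal B)) ^ 2 =
          Ideal.Quotient.mk v.asIdeal α / Ideal.Quotient.mk v.asIdeal β := by
        rw [div_eq_div_iff hD hβ0, mul_comm]
        exact h4
      rw [h5']
      exact h1
    · intro h
      subst h
      refine ⟨hq1, ⟨1, odd_one, by rw [hc1, pow_one]⟩, (curL A B).map m1, hΔm,
        ⟨(curL A B).c₄ ^ 3, (curL A B).Δ, hΔ1, by ring, ?_⟩, ?_⟩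
      · rw [WeierstrassCurve.map_c₄, WeierstrassCurve.map_Δ, map_pow]
        ring
      · rw [card_iff hq h5 _ hΔm]
        have h1 : ((curL A B).map m1).c₄ ^ 3 / ((curL A B).map m1).Δ = (y : 𝓞 K ⧸ v.asIdeal) := by
          rw [hcm, mul_div_assoc, div_self hΔm, mul_one]
        rw [h1]
        have h2 : (y : 𝓞 K ⧸ v.asIdeal) = ZMod.castHom (dvd_refl q) (𝓞 K ⧸ v.asIdeal) (y : ZMod q) := by
          simp
        rw [h2, SSj_map hq h5]
        exact hss
  · rintro n ⟨α, β, hβ, hj, hn⟩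
    have hβ0 : m1 β ≠ 0 := fun h0 => hβ (Ideal.Quotient.eq_zero_iff_mem.mp h0)
    have h1 : m1 α = (n : 𝓞 K ⧸ v1.asIdeal) * m1 β := by
      have := Ideal.Quotient.eq_zero_iff_mem.mpr hn
      rw [map_sub, map_mul, map_intCast, sub_eq_zero] at this
      exact this
    have h2 := congrArg m1 hj
    rw [map_mul, map_mul, map_pow, ← WeierstrassCurve.map_c₄, ← WeierstrassCurve.map_Δ, hcm, h1] at h2
    have h3 : (n : 𝓞 K ⧸ v1.asIdeal) = (y : 𝓞 K ⧸ v1.asIdeal) := by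
      apply mul_right_cancel₀ hΔm
      apply mul_left_cancel₀ hβ0
      linear_combination -h2
    rw [CharP.intCast_eq_intCast (𝓞 K ⧸ v1.asIdeal) q] at h3
    exact (ZMod.intCast_eq_intCast_iff n y q).mpr h3

end Pool.Agent.SS.DL
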