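import Mathlib
import Pool.Agent.Work.MP_a5099b_nt.D4.NormQ
import Pool.Agent.Work.MP_a5099b_nt.D4.Fib
import Pool.Agent.Work.MP_a5099b_nt.D5.PairL
import Pool.Agent.Work.MP_a5099b_nt.D5.HzL
import Pool.Agent.Work.MP_a5099b_nt.D5.SigL

/-!
# Module D5/LocL (M): a set of residues modulo `q` of proportion at least `c / q` for the Legendre family

PROOF. As `D4/LocG`. `V` = the finite set of the `v` above `q` (`above_finite`, `D4/NormQ`). `Good v1` = the pairs of `pairs_ge` for the residues in `O/v1` of `y`, `A0`, `B0` (map `ZMod q → O/v1`, injective); `Good v` = the pairs of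
`ordinary_third` for `v ≠ v1` (`Ideal.Quotient.field`, characteristic `q`). `G = Gset b q V Good`; `Gset_card` (`D4/Fib`): `ncard ≥ ∏ (Good v).ncard`; `N_v = Nat.card (O/v)`: `3 (Good v).ncard ≥ N_v ^ 2` for `v ≠ v1`,
`(Good v1).ncard ≥ q - 1 ≥ q / 3 = N_{v1} ^ 2 / (3 q)`; `∏ N_v = q ^ n`, `V.card ≤ n` (`prod_card`), `Fintype.card (ι ⊕ ι) = 2 n`. Second part: `Gset_mem`, `sigL_eq`.
-/

set_option autoImplicit false

namespace Pool.Agent.SS.DL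

open NumberField IsDedekindDomain Pool.Agent.SS.DD

variable {K : Type} [Field K] [NumberField K]

private theorem finQ (v : HeightOneSpectrum (𝓞 K)) : Finite (𝓞 K ⧸ v.asIdeal) :=
  Ideal.finiteQuotientOfFreeOfNeBot v.asIdeal v.ne_bot

omit [NumberField K] in
private theorem charP_quot' {q : ℕ} (hq' : q.Prime) (v : HeightOneSpectrum (𝓞 K))
    (hq : (q : 𝓞 K) ∈ v.asIdeal) : CharP (𝓞 K ⧸ v.asIdeal) q := by
  have hnt : Nontrivial (𝓞 K ⧸ v.asIdeal) := Ideal.Quotient.nontrivial_iff.2 v.isPrime.ne_top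
  have h0 : ((q : ℕ) : 𝓞 K ⧸ v.asIdeal) = 0 := by
    have := Ideal.Quotient.eq_zero_iff_mem.2 hq
    rwa [map_natCast] at this
  exact (CharP.charP_iff_prime_eq_zero hq').mpr h0

/-- the good pairs at the places `v ≠ v1` -/
private def ordPairs (q : ℕ) (v : HeightOneSpectrum (𝓞 K)) : Set ((𝓞 K ⧸ v.asIdeal) × (𝓞 K ⧸ v.asIdeal)) :=
  letI : Field (𝓞 K ⧸ v.asIdeal) := Ideal.Quotient.field v.asIdeal
  {P | P.1 ≠ 0 ∧ P.2 ≠ 0 ∧ P.1 ≠ P.2 ∧
      ¬ SSj q (256 * (P.1 ^ 2 - P.1 * P.2 + P.2 ^ 2) ^ 3 / (P.1 * P.2 * (P.1 - P.2)) ^ 2)}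

/-- the good pairs at the place `v1` -/
private def invPairs (y : ℤ) (v : HeightOneSpectrum (𝓞 K)) : Set ((𝓞 K ⧸ v.asIdeal) × (𝓞 K ⧸ v.asIdeal)) :=
  {P | P.1 ≠ 0 ∧ P.2 ≠ 0 ∧ P.1 ≠ P.2 ∧
      256 * (P.1 ^ 2 - P.1 * P.2 + P.2 ^ 2) ^ 3 = (y : 𝓞 K ⧸ v.asIdeal) * (P.1 * P.2 * (P.1 - P.2)) ^ 2}

private theorem good_ord {q : ℕ} (hq : q.Prime) (h17 : 17 ≤ q) (v : HeightOneSpectrum (𝓞 K))
    (hv : (q : 𝓞 K) ∈ v.asIdeal) :
    Nat.card (𝓞 K ⧸ v.asIdeal) ^ 2 ≤ 3 * (ordPairs q v).ncard := by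
  let _ : Field (𝓞 K ⧸ v.asIdeal) := Ideal.Quotient.field v.asIdeal
  have : CharP (𝓞 K ⧸ v.asIdeal) q := charP_quot' hq v hv
  have : Finite (𝓞 K ⧸ v.asIdeal) := finQ v
  exact ordinary_third hq h17 (𝓞 K ⧸ v.asIdeal)

private theorem good_inv {q : ℕ} [Fact q.Prime] (v : HeightOneSpectrum (𝓞 K))
    (hv : (q : 𝓞 K) ∈ v.asIdeal) (y : ℤ) (A0 B0 : ZMod q)
    (hA : A0 ≠ 0) (hB : B0 ≠ 0) (hAB : A0 ≠ B0)
    (hy : 256 * (A0 ^ 2 - A0 * B0 + B0 ^ 2) ^ 3 = (y : ZMod q) * (A0 * B0 * (A0 - B0)) ^ 2) :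
    Nat.card (𝓞 K ⧸ v.asIdeal) ≤ (invPairs y v).ncard + 1 := by
  let _ : Field (𝓞 K ⧸ v.asIdeal) := Ideal.Quotient.field v.asIdeal
  have : CharP (𝓞 K ⧸ v.asIdeal) q := charP_quot' Fact.out v hv
  have : Finite (𝓞 K ⧸ v.asIdeal) := finQ v
  let φ : ZMod q →+* (𝓞 K ⧸ v.asIdeal) := ZMod.castHom (dvd_refl q) (𝓞 K ⧸ v.asIdeal)
  have hφ : Function.Injective φ := φ.injective
  refine pairs_ge (𝓞 K ⧸ v.asIdeal) (y : 𝓞 K ⧸ v.asIdeal) (φ A0) (φ B0) ?_ ?_ ?_ ?_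
  · exact fun h => hA (hφ (h.trans (map_zero φ).symm))
  · exact fun h => hB (hφ (h.trans (map_zero φ).symm))
  · exact fun h => hAB (hφ h)
  · have h1 := congrArg φ hy
    simpa only [map_mul, map_pow, map_add, map_sub, map_intCast, map_ofNat] using h1

theorem exists_GL {ι : Type} [Fintype ι] (b : Module.Basis ι ℤ (𝓞 K)) {q : ℕ} [Fact q.Prime] (h17 : 17 ≤ q)
    (hur : ∀ v : HeightOneSpectrum (𝓞 K), (q : 𝓞 K) ∈ v.asIdeal → (q : 𝓞 K) ∉ v.asIdeal ^ 2)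
    (v1 : HeightOneSpectrum (𝓞 K)) (hq1 : (q : 𝓞 K) ∈ v1.asIdeal)
    (hc1 : Nat.card (𝓞 K ⧸ v1.asIdeal) = q) (y : ℤ) (hss : SSj q (y : ZMod q)) (A0 B0 : ZMod q)
    (hA : A0 ≠ 0) (hB : B0 ≠ 0) (hAB : A0 ≠ B0)
    (hy : 256 * (A0 ^ 2 - A0 * B0 + B0 ^ 2) ^ 3 = (y : ZMod q) * (A0 * B0 * (A0 - B0)) ^ 2) :
    ∃ G : Set (ι ⊕ ι → ZMod q),
      (1 / 3 ^ Module.finrank ℚ K : ℝ) / q * (q : ℝ) ^ Fintype.card (ι ⊕ ι) ≤ (G.ncard : ℝ) ∧
      ∀ z : ι ⊕ ι → ℤ, (fun i => (z i : ZMod q)) ∈ G →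
        (curL (∑ i, z (Sum.inl i) • b i) (∑ i, z (Sum.inr i) • b i)).Δ ≠ 0 ∧
        Sig q (curL (∑ i, z (Sum.inl i) • b i) (∑ i, z (Sum.inr i) • b i)) = {v1} ∧
        ∀ n : ℤ, JMod (curL (∑ i, z (Sum.inl i) • b i) (∑ i, z (Sum.inr i) • b i)) v1 n →
          (n : ZMod q) = (y : ZMod q) := by
  classical
  have hq : q.Prime := Fact.out
  set V : Finset (HeightOneSpectrum (𝓞 K)) := (above_finite (K := K) hq).toFinset with hVdef
  have hV : ∀ v, v ∈ V ↔ (q : 𝓞 K) ∈ v.asIdeal := by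
    intro v
    simp [hVdef]
  obtain ⟨hprod, hcardV⟩ := prod_card (K := K) hq hur V hV
  let Good : ∀ v : HeightOneSpectrum (𝓞 K), Set ((𝓞 K ⧸ v.asIdeal) × (𝓞 K ⧸ v.asIdeal)) := fun v =>
    {P | (v = v1 → P ∈ invPairs y v) ∧ (v ≠ v1 → P ∈ ordPairs q v)}
  have hG1 : Good v1 = invPairs y v1 := by
    ext P
    constructor
    · intro h
      exact h.1 rfl
    · intro h
      exact ⟨fun _ => h, fun h' => absurd rfl h'⟩
  have hG2 : ∀ v, v ≠ v1 → Good v = ordPairs q v := by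
    intro v hv
    ext P
    constructor
    · intro h
      exact h.2 hv
    · intro h
      exact ⟨fun h' => absurd h' hv, fun _ => h⟩
  refine ⟨Gset b q V Good, ?_, ?_⟩
  · have hle := Gset_card b hq V (fun v hv => (hV v).1 hv) Good
    have hv1V : v1 ∈ V := (hV v1).2 hq1
    have hqpos : (0 : ℝ) < q := by exact_mod_cast hq.pos
    have hι : Fintype.card ι = Module.finrank ℚ K := by
      rw [← NumberField.RingOfIntegers.rank K, Module.finrank_eq_card_basis b]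
    have hcard : Fintype.card (ι ⊕ ι) = 2 * Module.finrank ℚ K := by
      rw [Fintype.card_sum, hι]
      ring
    have hb1 : (q : ℝ) / 3 ≤ ((Good v1).ncard : ℝ) := by
      have := good_inv v1 hq1 y A0 B0 hA hB hAB hy
      rw [← hG1, hc1] at this
      have h2 : (q : ℝ) ≤ ((Good v1).ncard : ℝ) + 1 := by exact_mod_cast this
      have h3 : (17 : ℝ) ≤ q := by exact_mod_cast h17
      linarith
    have hb2 : ∀ v ∈ V, v ≠ v1 → ((Nat.card (𝓞 K ⧸ v.asIdeal) : ℝ)) ^ 2 / 3 ≤ ((Good v).ncard : ℝ) := by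
      intro v hv hne
      have := good_ord hq h17 v ((hV v).1 hv)
      rw [← hG2 v hne] at this
      have h2 : ((Nat.card (𝓞 K ⧸ v.asIdeal) : ℝ)) ^ 2 ≤ 3 * ((Good v).ncard : ℝ) := by exact_mod_cast this
      linarith
    have hP : (∏ v ∈ V, ((Nat.card (𝓞 K ⧸ v.asIdeal) : ℝ)) ^ 2 / 3) / q ≤ ∏ v ∈ V, ((Good v).ncard : ℝ) := by
      rw [← Finset.mul_prod_erase V _ hv1V, ← Finset.mul_prod_erase V (fun v => ((Good v).ncard : ℝ)) hv1V, hc1]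
      have e1 : (q : ℝ) ^ 2 / 3 * (∏ x ∈ V.erase v1, ((Nat.card (𝓞 K ⧸ x.asIdeal) : ℝ)) ^ 2 / 3) / q =
          (q : ℝ) / 3 * ∏ x ∈ V.erase v1, ((Nat.card (𝓞 K ⧸ x.asIdeal) : ℝ)) ^ 2 / 3 := by
        field_simp
      rw [e1]
      apply mul_le_mul hb1 _ (Finset.prod_nonneg fun _ _ => by positivity) (by positivity)
      apply Finset.prod_le_prod (fun _ _ => by positivity)
      intro v hv
      exact hb2 v (Finset.mem_of_mem_erase hv) (Finset.ne_of_mem_erase hv)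
    have hprod' : ∏ v ∈ V, (Nat.card (𝓞 K ⧸ v.asIdeal) : ℝ) = (q : ℝ) ^ Module.finrank ℚ K := by
      exact_mod_cast hprod
    have hP2 : (∏ v ∈ V, ((Nat.card (𝓞 K ⧸ v.asIdeal) : ℝ)) ^ 2 / 3) =
        ((q : ℝ) ^ Module.finrank ℚ K) ^ 2 / 3 ^ V.card := by
      rw [Finset.prod_div_distrib, Finset.prod_pow, hprod', Finset.prod_const]
    have hle' : (∏ v ∈ V, ((Good v).ncard : ℝ)) ≤ ((Gset b q V Good).ncard : ℝ) := by exact_mod_cast hle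
    rw [hP2] at hP
    rw [hcard]
    refine le_trans ?_ (le_trans hP hle')
    have e2 : (1 / 3 ^ Module.finrank ℚ K : ℝ) / q * (q : ℝ) ^ (2 * Module.finrank ℚ K) =
        ((q : ℝ) ^ Module.finrank ℚ K) ^ 2 / 3 ^ Module.finrank ℚ K / q := by
      rw [← pow_mul, mul_comm (Module.finrank ℚ K) 2]
      ring
    rw [e2]
    apply div_le_div_of_nonneg_right _ hqpos.le
    apply div_le_div_of_nonneg_left (by positivity) (by positivity)
    exact pow_le_pow_right₀ (by norm_num) hcardV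
  · intro z hz
    have hmem := Gset_mem b hq V (fun v hv => (hV v).1 hv) Good z hz
    have g1 := hmem v1 ((hV v1).2 hq1)
    rw [hG1] at g1
    obtain ⟨a1, a2, a3, a4⟩ := g1
    refine sigL_eq (by omega) _ _ v1 hq1 hc1 y hss a1 a2 a3 a4 ?_
    intro v hv hne
    have g2 := hmem v ((hV v).2 hv)
    rw [hG2 v hne] at g2
    exact g2

end Pool.Agent.SS.DL
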