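import Pool.Agent.Work.MP_a5099b_nt.J.Main2
import Pool.Agent.Work.MP_a5099b_nt.J.Sur
import Pool.Agent.Work.MP_a5099b_nt.D4.DensU
import Pool.Agent.Work.MP_a5099b_nt.D5.Deg3
import Pool.Agent.Work.MP_a5099b_nt.D5.Full
import Pool.Agent.Work.MP_a5099b_nt.D5.LocL

/-!
# Module D5/Main (helper97): density one in the Legendre family, assembly.
-/

set_option autoImplicit false

namespace Pool.Agent.SS.DL

open NumberField IsDedekindDomain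

/-- The curve with one supersingular place of degree one above `q`. -/
theorem criterion {K : Type} [Field K] [NumberField K] [IsTotallyComplex K]
    {q : ℕ} [hq : Fact q.Prime] (h7 : 7 ≤ q) (h4 : q % 4 = 3)
    (hur : ∀ v : HeightOneSpectrum (𝓞 K), (q : 𝓞 K) ∈ v.asIdeal → (q : 𝓞 K) ∉ v.asIdeal ^ 2)
    (W : WeierstrassCurve (𝓞 K)) (hW : W.Δ ≠ 0) (v1 : HeightOneSpectrum (𝓞 K))
    (hS : Sig q W = {v1}) (y : ℤ) (h0 : (y : ZMod q) ≠ 0) (h1 : (y : ZMod q) ≠ 1728)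
    (hJ : ∀ n : ℤ, JMod W v1 n → (n : ZMod q) = (y : ZMod q)) :
    {v : HeightOneSpectrum (𝓞 K) | SSRed W v}.Infinite := by
  refine J.main2 J.jL_hom J.jL_sur W hW hq.out h7 h4 ?_ ?_ ?_
  · intro v hv
    exact hur v hv.1
  · intro v hv
    rw [hS, Set.mem_singleton_iff] at hv
    subst hv
    refine ⟨fun h => h0 ?_, fun h => h1 ?_⟩
    · have := hJ 0 h
      simpa using this.symm
    · have := hJ 1728 h
      simpa using this.symm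
  · rw [hS, Set.ncard_singleton]
    exact odd_one

/-- The primes used. -/
def PL (K : Type) [Field K] [NumberField K] (d q : ℕ) : Prop :=
  17 < q ∧ q % 4 = 3 ∧ (∃ s : ZMod q, s ^ 2 = (d : ZMod q)) ∧
  (∀ v : HeightOneSpectrum (𝓞 K), (q : 𝓞 K) ∈ v.asIdeal → (q : 𝓞 K) ∉ v.asIdeal ^ 2) ∧
  ∃ v : HeightOneSpectrum (𝓞 K), (q : 𝓞 K) ∈ v.asIdeal ∧ Nat.card (𝓞 K ⧸ v.asIdeal) = q

/-- The exceptional coordinate vectors. -/
def ExcL {K : Type} [Field K] [NumberField K] {ι : Type} [Fintype ι] (b : Module.Basis ι ℤ (𝓞 K)) :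
    Set (ι ⊕ ι → ℤ) :=
  {z | ¬ ((curL (∑ i, z (Sum.inl i) • b i) (∑ i, z (Sum.inr i) • b i)).Δ ≠ 0 ∧
    {v : HeightOneSpectrum (𝓞 K) |
      SSRed (curL (∑ i, z (Sum.inl i) • b i) (∑ i, z (Sum.inr i) • b i)) v}.Infinite)}

theorem exists_Gq {K : Type} [Field K] [NumberField K] [IsTotallyComplex K] {ι : Type} [Fintype ι]
    (b : Module.Basis ι ℤ (𝓞 K)) (d : ℕ) (hd : d = 2 ∨ d = 3) (q : ℕ) :
    ∃ G : Set (ι ⊕ ι → ZMod q), q.Prime → PL K d q →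
      (1 / 3 ^ Module.finrank ℚ K : ℝ) / q * (q : ℝ) ^ Fintype.card (ι ⊕ ι) ≤ (G.ncard : ℝ) ∧
      ∀ z ∈ ExcL b, (fun i => (z i : ZMod q)) ∉ G := by
  by_cases hq : q.Prime
  swap
  · exact ⟨∅, fun h => absurd h hq⟩
  by_cases hP : PL K d q
  swap
  · exact ⟨∅, fun _ h => absurd h hP⟩
  have : Fact q.Prime := ⟨hq⟩
  obtain ⟨h17, h4, hs, hur, v1, hq1, hc1⟩ := hP
  obtain ⟨y, A0, B0, hss, h0, h1, hA, hB, hAB, hy⟩ := full (q := q) (by omega) h4 d hd hs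
  obtain ⟨G, hG, hGz⟩ := exists_GL b (by omega : 17 ≤ q) hur v1 hq1 hc1 y hss A0 B0 hA hB hAB hy
  refine ⟨G, fun _ _ => ⟨hG, fun z hz hzG => hz ?_⟩⟩
  obtain ⟨hΔ, hS, hJ⟩ := hGz z hzG
  exact ⟨hΔ, criterion (by omega) h4 hur _ hΔ v1 hS y h0 h1 hJ⟩

/-- Uniform form: all boxes with long sides. -/
theorem main_uniform (K : Type) [Field K] [NumberField K] [IsTotallyComplex K]
    (hi : ∀ x : K, x ^ 2 ≠ -1) (h23 : (∀ x : K, x ^ 2 ≠ -2) ∨ ∀ x : K, x ^ 2 ≠ -3) {ι : Type}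
    [Fintype ι] (b : Module.Basis ι ℤ (𝓞 K)) (ε : ℝ) (hε : 0 < ε) :
    ∃ L : ℕ, ∀ (a : ι ⊕ ι → ℤ) (T : ι ⊕ ι → ℕ), (∀ i, L ≤ T i) →
      {z : ι ⊕ ι → ℤ | (∀ i, a i ≤ z i ∧ z i < a i + T i) ∧ z ∈ ExcL b}.Finite ∧
      ({z : ι ⊕ ι → ℤ | (∀ i, a i ≤ z i ∧ z i < a i + T i) ∧ z ∈ ExcL b}.ncard : ℝ) ≤
        ε * ∏ i, (T i : ℝ) := by
  classical
  obtain ⟨d, hd, hdx⟩ : ∃ d : ℕ, (d = 2 ∨ d = 3) ∧ ∀ x : K, x ^ 2 ≠ -(d : K) := by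
    rcases h23 with h | h
    · exact ⟨2, Or.inl rfl, by exact_mod_cast h⟩
    · exact ⟨3, Or.inr rfl, by exact_mod_cast h⟩
  choose G hG using exists_Gq b d hd
  refine DD.density_uniform (ι ⊕ ι) (ExcL b) (1 / 3 ^ Module.finrank ℚ K) (by positivity) (PL K d) G
    ?_ (fun q hq hP => (hG q hq hP).1) (fun q hq hP => (hG q hq hP).2) ε hε
  intro R
  obtain ⟨S, hS, hR⟩ := deg3 K d (by omega) hi hdx 17 R
  exact ⟨S, fun q hq => ⟨(hS q hq).1, (hS q hq).2⟩, hR⟩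

end Pool.Agent.SS.DL
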